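import Mathlib

set_option autoImplicit false

namespace Pool.Agent.Work.MP_f25c59_an

/-- `N` is a `p`-norm on the real vector space `X` and `X` is complete for it. -/
def IsPBanach (p : ℝ) {X : Type} [AddCommGroup X] [Module ℝ X] (N : X → ℝ) : Prop :=
  (∀ x, 0 ≤ N x) ∧ (∀ x, N x = 0 → x = 0) ∧ (∀ (t : ℝ) (x : X), N (t • x) = |t| * N x) ∧
  (∀ x y, N (x + y) ^ p ≤ N x ^ p + N y ^ p) ∧
  ∀ u : ℕ → X, (∀ ε : ℝ, 0 < ε → ∃ k : ℕ, ∀ m n : ℕ, k ≤ m → k ≤ n → N (u m - u n) < ε) →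
    ∃ x, Filter.Tendsto (fun n => N (u n - x)) Filter.atTop (nhds 0)

/-- `K` is (sequentially) compact for the quasi-norm `N`. -/
def IsCompactFor {X : Type} [AddCommGroup X] (N : X → ℝ) (K : Set X) : Prop :=
  ∀ u : ℕ → X, (∀ n, u n ∈ K) → ∃ x ∈ K, ∃ φ : ℕ → ℕ, StrictMono φ ∧
    Filter.Tendsto (fun n => N (u (φ n) - x)) Filter.atTop (nhds 0)

/-- The approximation property of the quasi-normed space `(X, N)`. -/
def HasAP {X : Type} [AddCommGroup X] [Module ℝ X] (N : X → ℝ) : Prop :=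
  ∀ K : Set X, IsCompactFor N K → ∀ ε : ℝ, 0 < ε → ∃ T : X →ₗ[ℝ] X,
    (∃ C : ℝ, ∀ x, N (T x) ≤ C * N x) ∧ FiniteDimensional ℝ (LinearMap.range T) ∧
    ∀ x ∈ K, N (T x - x) < ε

/-- `(Y, N, δ)` is a Lipschitz free `p`-space over the pointed metric space `(M, o)`. -/
def IsFree (p : ℝ) {M : Type} [MetricSpace M] (o : M) {Y : Type} [AddCommGroup Y] [Module ℝ Y]
    (N : Y → ℝ) (δ : M → Y) : Prop :=
  IsPBanach p N ∧ δ o = 0 ∧ (∀ a b, N (δ a - δ b) = dist a b) ∧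
  (∀ (y : Y) (ε : ℝ), 0 < ε → ∃ z ∈ Submodule.span ℝ (Set.range δ), N (y - z) < ε) ∧
  ∀ (X : Type) [AddCommGroup X] [Module ℝ X] (NX : X → ℝ), IsPBanach p NX →
    ∀ f : M → X, f o = 0 → (∃ L : ℝ, ∀ a b, NX (f a - f b) ≤ L * dist a b) →
      ∃ T : Y →ₗ[ℝ] X, (∀ a, T (δ a) = f a) ∧
        (∀ L : ℝ, 0 ≤ L →
          ((∀ y, NX (T y) ≤ L * N y) ↔ ∀ a b, NX (f a - f b) ≤ L * dist a b)) ∧
        ∀ T' : Y →ₗ[ℝ] X, (∃ C : ℝ, ∀ y, NX (T' y) ≤ C * N y) → (∀ a, T' (δ a) = f a) → T' = T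

end Pool.Agent.Work.MP_f25c59_an
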