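import Pool.Agent.Work.MP_f25c59_an.Defs

/-!
Existence of the Lipschitz free `p`-space over any pointed metric space, `0 < p ≤ 1`.
We work with the `p`-th power of the `p`-norm, which is a group norm.
-/

set_option autoImplicit false

namespace Pool.Agent.Work.MP_f25c59_an

open Filter Topology

section Target

variable {p : ℝ} {X : Type} [AddCommGroup X] [Module ℝ X] {N : X → ℝ}

lemma IsPBanach.nonneg (h : IsPBanach p N) (x : X) : 0 ≤ N x := h.1 x
lemma IsPBanach.eq_zero (h : IsPBanach p N) (x : X) (hx : N x = 0) : x = 0 := h.2.1 x hx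
lemma IsPBanach.smul (h : IsPBanach p N) (t : ℝ) (x : X) : N (t • x) = |t| * N x := h.2.2.1 t x
lemma IsPBanach.triangle (h : IsPBanach p N) (x y : X) : N (x + y) ^ p ≤ N x ^ p + N y ^ p :=
  h.2.2.2.1 x y
lemma IsPBanach.zero (h : IsPBanach p N) : N 0 = 0 := by
  have := h.smul 0 0
  simpa using this
lemma IsPBanach.neg (h : IsPBanach p N) (x : X) : N (-x) = N x := by
  have := h.smul (-1) x
  simpa using this

/-- Type synonym carrying the group norm `N ^ p`. -/
@[nolint unusedArguments]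
def PN (_h : IsPBanach p N) : Type := X

instance (h : IsPBanach p N) : AddCommGroup (PN h) := inferInstanceAs (AddCommGroup X)
instance (h : IsPBanach p N) : Module ℝ (PN h) := inferInstanceAs (Module ℝ X)

/-- The group norm `N ^ p`. -/
noncomputable def pnNorm [hp : Fact (0 < p)] (h : IsPBanach p N) : AddGroupNorm (PN h) where
  toFun x := N x ^ p
  map_zero' := by
    show N (0 : X) ^ p = 0
    rw [h.zero, Real.zero_rpow hp.out.ne']
  add_le' x y := h.triangle x y
  neg' x := by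
    show N (-(show X from x)) ^ p = N x ^ p
    rw [h.neg]
  eq_zero_of_map_eq_zero' x hx := h.eq_zero x ((Real.rpow_eq_zero (h.nonneg x) hp.out.ne').1 hx)

noncomputable instance [Fact (0 < p)] (h : IsPBanach p N) : NormedAddCommGroup (PN h) :=
  (pnNorm h).toNormedAddCommGroup

lemma PN.norm_def [Fact (0 < p)] (h : IsPBanach p N) (x : PN h) : ‖x‖ = N x ^ p := rfl

lemma PN.norm_smul [Fact (0 < p)] (h : IsPBanach p N) (t : ℝ) (x : PN h) :
    ‖t • x‖ = |t| ^ p * ‖x‖ := by
  show N (t • (show X from x)) ^ p = |t| ^ p * N x ^ p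
  rw [h.smul, Real.mul_rpow (abs_nonneg t) (h.nonneg _)]

instance [hp : Fact (0 < p)] (h : IsPBanach p N) : CompleteSpace (PN h) := by
  refine Metric.complete_of_cauchySeq_tendsto ?_
  intro u hu
  obtain ⟨x, hx⟩ := h.2.2.2.2 u (by
    intro ε hε
    obtain ⟨k, hk⟩ := Metric.cauchySeq_iff.1 hu (ε ^ p) (Real.rpow_pos_of_pos hε p)
    refine ⟨k, fun m n hm hn => ?_⟩
    have := hk m hm n hn
    rw [dist_eq_norm, PN.norm_def] at this
    exact (Real.rpow_lt_rpow_iff (h.nonneg _) hε.le hp.out).1 this)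
  refine ⟨x, ?_⟩
  rw [tendsto_iff_norm_sub_tendsto_zero]
  have h1 := hx.rpow_const (p := p) (Or.inr hp.out.le)
  rw [Real.zero_rpow hp.out.ne'] at h1
  exact h1

end Target

section Generic

variable {p : ℝ} {E : Type} [SeminormedAddCommGroup E] [Module ℝ E]

lemma smul_eq_of_le (hE : ∀ (t : ℝ) (x : E), ‖t • x‖ ≤ |t| ^ p * ‖x‖) (hp : 0 < p) (t : ℝ)
    (x : E) : ‖t • x‖ = |t| ^ p * ‖x‖ := by
  refine le_antisymm (hE t x) ?_
  rcases eq_or_ne t 0 with rfl | ht
  · simp [Real.zero_rpow hp.ne']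
  · have h1 := hE t⁻¹ (t • x)
    rw [smul_smul, inv_mul_cancel₀ ht, one_smul, abs_inv, Real.inv_rpow (abs_nonneg t)] at h1
    have h2 : 0 < |t| ^ p := Real.rpow_pos_of_pos (abs_pos.2 ht) p
    calc |t| ^ p * ‖x‖ ≤ |t| ^ p * ((|t| ^ p)⁻¹ * ‖t • x‖) := mul_le_mul_of_nonneg_left h1 h2.le
      _ = ‖t • x‖ := by field_simp

lemma continuousConstSMul_of_le (hE : ∀ (t : ℝ) (x : E), ‖t • x‖ ≤ |t| ^ p * ‖x‖) :
    ContinuousConstSMul ℝ E :=
  ⟨fun t => AddMonoidHomClass.continuous_of_bound (DistribSMul.toAddMonoidHom E t) (|t| ^ p)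
    (hE t)⟩

lemma completion_norm_smul [UniformContinuousConstSMul ℝ E]
    (hE : ∀ (t : ℝ) (x : E), ‖t • x‖ = |t| ^ p * ‖x‖) (t : ℝ) (y : UniformSpace.Completion E) :
    ‖t • y‖ = |t| ^ p * ‖y‖ := by
  induction y using UniformSpace.Completion.induction_on with
  | hp =>
    exact isClosed_eq (continuous_const_smul t).norm (continuous_const.mul continuous_norm)
  | ih x =>
    rw [← UniformSpace.Completion.coe_smul, UniformSpace.Completion.norm_coe,
      UniformSpace.Completion.norm_coe]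
    exact hE t x

lemma completion_extend [UniformContinuousConstSMul ℝ E] {X : Type} [NormedAddCommGroup X]
    [Module ℝ X] [CompleteSpace X] [ContinuousConstSMul ℝ X] (T1 : E →ₗ[ℝ] X) (L0 : ℝ)
    (h0 : ∀ x, ‖T1 x‖ ≤ L0 * ‖x‖) :
    ∃ T : UniformSpace.Completion E →ₗ[ℝ] X, (∀ x : E, T x = T1 x) ∧
      ∀ L : ℝ, (∀ x, ‖T1 x‖ ≤ L * ‖x‖) → ∀ y, ‖T y‖ ≤ L * ‖y‖ := by
  have huc : UniformContinuous T1 := AddMonoidHomClass.uniformContinuous_of_bound T1 L0 h0
  have hc : Continuous (UniformSpace.Completion.extension T1 : UniformSpace.Completion E → X) :=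
    UniformSpace.Completion.continuous_extension
  have hcoe : ∀ x : E, UniformSpace.Completion.extension T1 (x : UniformSpace.Completion E)
      = T1 x := UniformSpace.Completion.extension_coe huc
  let T : UniformSpace.Completion E →ₗ[ℝ] X :=
    { toFun := UniformSpace.Completion.extension T1
      map_add' := by
        intro y z
        induction y, z using UniformSpace.Completion.induction_on₂ with
        | hp =>
          exact isClosed_eq (hc.comp continuous_add)
            ((hc.comp continuous_fst).add (hc.comp continuous_snd))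
        | ih a b => rw [← UniformSpace.Completion.coe_add, hcoe, hcoe, hcoe, map_add]
      map_smul' := by
        intro t y
        induction y using UniformSpace.Completion.induction_on with
        | hp => exact isClosed_eq (hc.comp (continuous_const_smul t)) (hc.const_smul _)
        | ih a => rw [← UniformSpace.Completion.coe_smul, hcoe, hcoe, map_smul, RingHom.id_apply] }
  refine ⟨T, hcoe, ?_⟩
  intro L h y
  show ‖UniformSpace.Completion.extension T1 y‖ ≤ _
  induction y using UniformSpace.Completion.induction_on with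
  | hp => exact isClosed_le hc.norm (continuous_const.mul continuous_norm)
  | ih a => rw [hcoe, UniformSpace.Completion.norm_coe]; exact h a

end Generic

section Construction

variable (p : ℝ) (M : Type) [MetricSpace M]

/-- Formal finite combinations of pairs of points. -/
@[nolint unusedArguments]
def Q (_p : ℝ) (M : Type) : Type := (M × M) →₀ ℝ

noncomputable instance : AddCommGroup (Q p M) := inferInstanceAs (AddCommGroup ((M × M) →₀ ℝ))
noncomputable instance : Module ℝ (Q p M) := inferInstanceAs (Module ℝ ((M × M) →₀ ℝ))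

variable {M}

/-- The cost of a formal combination. -/
noncomputable def cost (q : (M × M) →₀ ℝ) : ℝ := ∑ ab ∈ q.support, (|q ab| * dist ab.1 ab.2) ^ p

variable {p}

lemma cost_eq (hp : 0 < p) (q : (M × M) →₀ ℝ) (s : Finset (M × M)) (hs : q.support ⊆ s) :
    cost p q = ∑ ab ∈ s, (|q ab| * dist ab.1 ab.2) ^ p := by
  refine Finset.sum_subset hs ?_
  intro ab _ hab
  rw [Finsupp.notMem_support_iff.1 hab]
  simp [Real.zero_rpow hp.ne']

lemma cost_add (hp : 0 < p) (hp1 : p ≤ 1) (q r : (M × M) →₀ ℝ) :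
    cost p (q + r) ≤ cost p q + cost p r := by
  classical
  rw [cost_eq hp (q + r) (q.support ∪ r.support) Finsupp.support_add,
    cost_eq hp q (q.support ∪ r.support) Finset.subset_union_left,
    cost_eq hp r (q.support ∪ r.support) Finset.subset_union_right, ← Finset.sum_add_distrib]
  refine Finset.sum_le_sum fun ab _ => ?_
  refine le_trans ?_ (Real.rpow_add_le_add_rpow (by positivity) (by positivity) hp.le hp1)
  refine Real.rpow_le_rpow (by positivity) ?_ hp.le
  rw [← add_mul, Finsupp.add_apply]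
  exact mul_le_mul_of_nonneg_right (abs_add_le _ _) dist_nonneg

lemma cost_smul (hp : 0 < p) (t : ℝ) (q : (M × M) →₀ ℝ) :
    cost p (t • q) = |t| ^ p * cost p q := by
  rw [cost_eq hp (t • q) q.support Finsupp.support_smul, cost, Finset.mul_sum]
  refine Finset.sum_congr rfl fun ab _ => ?_
  rw [Finsupp.smul_apply, smul_eq_mul, abs_mul, mul_assoc,
    Real.mul_rpow (abs_nonneg t) (by positivity)]

lemma cost_single (hp : 0 < p) (a b : M) : cost p (Finsupp.single (a, b) (1 : ℝ)) = dist a b ^ p := by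
  rw [cost_eq hp _ {(a, b)} Finsupp.support_single_subset]
  simp

variable (p M)

/-- The cost as a group seminorm. -/
noncomputable def qSemi [hp : Fact (0 < p)] [hp1 : Fact (p ≤ 1)] : AddGroupSeminorm (Q p M) where
  toFun q := cost p q
  map_zero' := by
    show cost p (0 : (M × M) →₀ ℝ) = 0
    simp [cost]
  add_le' q r := cost_add hp.out hp1.out q r
  neg' q := by
    have := cost_smul hp.out (-1) (show (M × M) →₀ ℝ from q)
    rw [neg_one_smul, abs_neg, abs_one, Real.one_rpow, one_mul] at this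
    exact this

noncomputable instance [Fact (0 < p)] [Fact (p ≤ 1)] : SeminormedAddCommGroup (Q p M) :=
  (qSemi p M).toSeminormedAddCommGroup

variable {M}

/-- The formal pair. -/
noncomputable def pr (a b : M) : Q p M := Finsupp.single (a, b) (1 : ℝ)

/-- The relations. -/
noncomputable def rel (o : M) : Submodule ℝ (Q p M) :=
  Submodule.span ℝ ({q | ∃ a b, q = pr p a b - (pr p a o - pr p b o)} ∪ {pr p o o})

/-- Molecules with the quotient seminorm. -/
abbrev Mol0 (o : M) : Type := Q p M ⧸ rel p o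

variable [hp : Fact (0 < p)] [hp1 : Fact (p ≤ 1)]

lemma Q.norm_def (q : Q p M) : ‖q‖ = cost p q := rfl

lemma Mol0.norm_smul_le (o : M) (t : ℝ) (x : Mol0 p o) : ‖t • x‖ ≤ |t| ^ p * ‖x‖ := by
  refine le_of_forall_pos_le_add fun ε hε => ?_
  have h0 : 0 ≤ |t| ^ p := Real.rpow_nonneg (abs_nonneg t) p
  obtain ⟨m, rfl, hm⟩ := Submodule.Quotient.norm_mk_lt x (show 0 < ε / (|t| ^ p + 1) by positivity)
  rw [← Submodule.Quotient.mk_smul]
  refine le_trans (Submodule.Quotient.norm_mk_le _ _) ?_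
  have h1 : ‖t • m‖ = |t| ^ p * ‖m‖ := cost_smul hp.out t m
  have h2 : |t| ^ p * (ε / (|t| ^ p + 1)) ≤ ε := by
    rw [mul_div_assoc', div_le_iff₀ (by positivity)]
    nlinarith
  rw [h1]
  nlinarith [mul_le_mul_of_nonneg_left hm.le h0]

instance (o : M) : UniformContinuousConstSMul ℝ (Mol0 p o) :=
  haveI := continuousConstSMul_of_le (Mol0.norm_smul_le p o)
  uniformContinuousConstSMul_of_continuousConstSMul ℝ (Mol0 p o)

/-- The free space. -/
abbrev FreeP (o : M) : Type := UniformSpace.Completion (Mol0 p o)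

lemma FreeP.norm_smul (o : M) (t : ℝ) (y : FreeP p o) : ‖t • y‖ = |t| ^ p * ‖y‖ :=
  completion_norm_smul (smul_eq_of_le (Mol0.norm_smul_le p o) hp.out) t y

/-- The `p`-norm of the free space. -/
noncomputable def freeN (o : M) (y : FreeP p o) : ℝ := ‖y‖ ^ p⁻¹

lemma freeN_rpow (o : M) (y : FreeP p o) : freeN p o y ^ p = ‖y‖ :=
  Real.rpow_inv_rpow (norm_nonneg y) hp.out.ne'

lemma freeN_nonneg (o : M) (y : FreeP p o) : 0 ≤ freeN p o y := Real.rpow_nonneg (norm_nonneg y) _

lemma freeN_lt_iff (o : M) (y : FreeP p o) {ε : ℝ} (hε : 0 ≤ ε) :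
    freeN p o y < ε ↔ ‖y‖ < ε ^ p := by
  rw [← freeN_rpow, Real.rpow_lt_rpow_iff (freeN_nonneg p o y) hε hp.out]

lemma freeN_isPBanach (o : M) : IsPBanach p (freeN p o) := by
  have hp0 := hp.out
  refine ⟨freeN_nonneg p o, ?_, ?_, ?_, ?_⟩
  · intro y hy
    rw [← norm_eq_zero, ← freeN_rpow, hy, Real.zero_rpow hp0.ne']
  · intro t y
    unfold freeN
    rw [FreeP.norm_smul, Real.mul_rpow (Real.rpow_nonneg (abs_nonneg t) p) (norm_nonneg y),
      Real.rpow_rpow_inv (abs_nonneg t) hp0.ne']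
  · intro x y
    rw [freeN_rpow, freeN_rpow, freeN_rpow]
    exact norm_add_le x y
  · intro u hu
    have hc : CauchySeq u := by
      refine Metric.cauchySeq_iff.2 fun ε hε => ?_
      obtain ⟨k, hk⟩ := hu (ε ^ p⁻¹) (Real.rpow_pos_of_pos hε _)
      refine ⟨k, fun m hm n hn => ?_⟩
      have := (freeN_lt_iff p o _ (Real.rpow_nonneg hε.le _)).1 (hk m n hm hn)
      rwa [Real.rpow_inv_rpow hε.le hp0.ne', ← dist_eq_norm] at this
    obtain ⟨x, hx⟩ := cauchySeq_tendsto_of_complete hc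
    refine ⟨x, ?_⟩
    rw [tendsto_iff_norm_sub_tendsto_zero] at hx
    have h1 := hx.rpow_const (p := p⁻¹) (Or.inr (inv_pos.2 hp0).le)
    rw [Real.zero_rpow (inv_pos.2 hp0).ne'] at h1
    exact h1

/-- The coercion into the completion as a linear map. -/
noncomputable def toFree (o : M) : Q p M →ₗ[ℝ] FreeP p o where
  toFun q := ((Submodule.Quotient.mk q : Mol0 p o) : FreeP p o)
  map_add' q r := by rw [Submodule.Quotient.mk_add, UniformSpace.Completion.coe_add]
  map_smul' t q := by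
    rw [Submodule.Quotient.mk_smul, UniformSpace.Completion.coe_smul, RingHom.id_apply]

lemma toFree_rel (o : M) (q : Q p M) (hq : q ∈ rel p o) : toFree p o q = 0 := by
  show ((Submodule.Quotient.mk q : Mol0 p o) : FreeP p o) = 0
  rw [(Submodule.Quotient.mk_eq_zero _).2 hq, UniformSpace.Completion.coe_zero]

lemma norm_toFree_le (o : M) (q : Q p M) : ‖toFree p o q‖ ≤ cost p q := by
  show ‖((Submodule.Quotient.mk q : Mol0 p o) : FreeP p o)‖ ≤ _
  rw [UniformSpace.Completion.norm_coe]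
  exact Submodule.Quotient.norm_mk_le _ _

/-- The canonical embedding. -/
noncomputable def freeδ (o : M) (a : M) : FreeP p o := toFree p o (pr p a o)

lemma toFree_pr (o a b : M) : toFree p o (pr p a b) = freeδ p o a - freeδ p o b := by
  have := toFree_rel p o (pr p a b - (pr p a o - pr p b o))
    (Submodule.subset_span (Or.inl ⟨a, b, rfl⟩))
  rw [map_sub, map_sub, sub_eq_zero] at this
  exact this

lemma freeδ_base (o : M) : freeδ p o o = 0 :=
  toFree_rel p o _ (Submodule.subset_span (Or.inr rfl))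

lemma freeδ_le (o a b : M) : freeN p o (freeδ p o a - freeδ p o b) ≤ dist a b := by
  have h1 := norm_toFree_le p o (pr p a b)
  rw [toFree_pr] at h1
  have h2 : cost p (pr p a b) = dist a b ^ p := cost_single hp.out a b
  rw [h2, ← freeN_rpow] at h1
  exact (Real.rpow_le_rpow_iff (freeN_nonneg p o _) dist_nonneg hp.out).1 h1

lemma toFree_mem_span (o : M) (q : Q p M) :
    toFree p o q ∈ Submodule.span ℝ (Set.range (freeδ p o)) := by
  induction (show (M × M) →₀ ℝ from q) using Finsupp.induction_linear with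
  | zero => exact (map_zero (toFree p o)) ▸ Submodule.zero_mem _
  | add f g hf hg => exact (map_add (toFree p o) f g) ▸ Submodule.add_mem _ hf hg
  | single ab c =>
    have e : (Finsupp.single ab c : (M × M) →₀ ℝ) = c • Finsupp.single (ab.1, ab.2) (1 : ℝ) := by
      simp
    have e2 : toFree p o (Finsupp.single ab c : (M × M) →₀ ℝ) = c • toFree p o (pr p ab.1 ab.2) := by
      rw [e]; exact map_smul (toFree p o) c (pr p ab.1 ab.2)
    rw [e2, toFree_pr]
    exact Submodule.smul_mem _ _ (Submodule.sub_mem _ (Submodule.subset_span ⟨_, rfl⟩)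
      (Submodule.subset_span ⟨_, rfl⟩))

lemma free_dense (o : M) (y : FreeP p o) (ε : ℝ) (hε : 0 < ε) :
    ∃ z ∈ Submodule.span ℝ (Set.range (freeδ p o)), freeN p o (y - z) < ε := by
  obtain ⟨x, hx⟩ := Metric.denseRange_iff.1 UniformSpace.Completion.denseRange_coe y (ε ^ p)
    (Real.rpow_pos_of_pos hε p)
  obtain ⟨q, rfl⟩ := Submodule.Quotient.mk_surjective _ x
  refine ⟨toFree p o q, toFree_mem_span p o q, ?_⟩
  rw [freeN_lt_iff p o _ hε.le, ← dist_eq_norm]
  exact hx

/-- Extension of a Lipschitz map. -/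
lemma free_extend (o : M) {X : Type} [NormedAddCommGroup X] [Module ℝ X] [CompleteSpace X]
    (hX : ∀ (t : ℝ) (x : X), ‖t • x‖ = |t| ^ p * ‖x‖) (f : M → X) (hf : f o = 0) (L0 : ℝ)
    (hL0 : 0 ≤ L0) (h0 : ∀ a b, ‖f a - f b‖ ≤ L0 * dist a b ^ p) :
    ∃ T : FreeP p o →ₗ[ℝ] X, (∀ a, T (freeδ p o a) = f a) ∧
      ∀ L : ℝ, 0 ≤ L → (∀ a b, ‖f a - f b‖ ≤ L * dist a b ^ p) → ∀ y, ‖T y‖ ≤ L * ‖y‖ := by
  have := continuousConstSMul_of_le (fun t (x : X) => (hX t x).le)
  let T0 : Q p M →ₗ[ℝ] X := Finsupp.linearCombination ℝ (fun ab : M × M => f ab.1 - f ab.2)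
  have hT0 : ∀ a b, T0 (pr p a b) = f a - f b := by
    intro a b
    show Finsupp.linearCombination ℝ (fun ab : M × M => f ab.1 - f ab.2)
      (Finsupp.single (a, b) (1 : ℝ)) = _
    simp
  have hker : rel p o ≤ LinearMap.ker T0 := by
    refine Submodule.span_le.2 ?_
    rintro q (⟨a, b, rfl⟩ | rfl)
    · simp [hT0, hf]
    · simp [hT0]
  have hb0 : ∀ L : ℝ, 0 ≤ L → (∀ a b, ‖f a - f b‖ ≤ L * dist a b ^ p) →
      ∀ q : Q p M, ‖T0 q‖ ≤ L * ‖q‖ := by
    intro L hL h q
    have e : T0 q = ∑ ab ∈ (show (M × M) →₀ ℝ from q).support,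
        (show (M × M) →₀ ℝ from q) ab • (f ab.1 - f ab.2) := rfl
    rw [e, Q.norm_def, cost, Finset.mul_sum]
    refine le_trans (norm_sum_le _ _) (Finset.sum_le_sum fun ab _ => ?_)
    rw [hX, Real.mul_rpow (abs_nonneg _) dist_nonneg, mul_left_comm]
    exact mul_le_mul_of_nonneg_left (h _ _) (Real.rpow_nonneg (abs_nonneg _) p)
  let T1 : Mol0 p o →ₗ[ℝ] X := (rel p o).liftQ T0 hker
  have hb1 : ∀ L : ℝ, 0 ≤ L → (∀ a b, ‖f a - f b‖ ≤ L * dist a b ^ p) →
      ∀ x : Mol0 p o, ‖T1 x‖ ≤ L * ‖x‖ := by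
    intro L hL h x
    refine le_of_forall_pos_le_add fun ε hε => ?_
    obtain ⟨m, rfl, hm⟩ := Submodule.Quotient.norm_mk_lt x (show 0 < ε / (L + 1) by positivity)
    have h1 : ‖T1 (Submodule.Quotient.mk m)‖ ≤ L * ‖m‖ := hb0 L hL h m
    have h2 : L * (ε / (L + 1)) ≤ ε := by
      rw [mul_div_assoc', div_le_iff₀ (by positivity)]
      nlinarith
    nlinarith [mul_le_mul_of_nonneg_left hm.le hL]
  obtain ⟨T, hT1, hT2⟩ := completion_extend T1 L0 (hb1 L0 hL0 h0)
  refine ⟨T, ?_, fun L hL h => hT2 L (hb1 L hL h)⟩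
  intro a
  refine (hT1 (Submodule.Quotient.mk (pr p a o))).trans ?_
  show T0 (pr p a o) = _
  rw [hT0, hf, sub_zero]

omit hp1 in
lemma abs_isPBanach' (hp1 : p ≤ 1) : IsPBanach p (fun x : ℝ => |x|) := by
  refine ⟨fun x => abs_nonneg x, fun x hx => abs_eq_zero.1 hx, fun t x => abs_mul t x, ?_, ?_⟩
  · intro x y
    refine le_trans ?_ (Real.rpow_add_le_add_rpow (abs_nonneg x) (abs_nonneg y) hp.out.le hp1)
    exact Real.rpow_le_rpow (abs_nonneg _) (abs_add_le x y) hp.out.le
  · intro u hu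
    have hc : CauchySeq u := by
      refine Metric.cauchySeq_iff.2 fun ε hε => ?_
      obtain ⟨k, hk⟩ := hu ε hε
      exact ⟨k, fun m hm n hn => by rw [Real.dist_eq]; exact hk m n hm hn⟩
    obtain ⟨x, hx⟩ := cauchySeq_tendsto_of_complete hc
    exact ⟨x, tendsto_iff_norm_sub_tendsto_zero.1 hx⟩

lemma free_univ (o : M) (X : Type) [AddCommGroup X] [Module ℝ X] (NX : X → ℝ)
    (hX : IsPBanach p NX) (f : M → X) (hf : f o = 0)
    (hL : ∃ L : ℝ, ∀ a b, NX (f a - f b) ≤ L * dist a b) :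
    ∃ T : FreeP p o →ₗ[ℝ] X, (∀ a, T (freeδ p o a) = f a) ∧
      ∀ L : ℝ, 0 ≤ L → (∀ a b, NX (f a - f b) ≤ L * dist a b) →
        ∀ y, NX (T y) ≤ L * freeN p o y := by
  have hp0 := hp.out
  have key : ∀ L : ℝ, 0 ≤ L → (∀ a b, NX (f a - f b) ≤ L * dist a b) →
      ∀ a b, ‖(show PN hX from f a) - (show PN hX from f b)‖ ≤ L ^ p * dist a b ^ p := by
    intro L hL h a b
    rw [← Real.mul_rpow hL dist_nonneg]
    exact Real.rpow_le_rpow (hX.nonneg _) (h a b) hp0.le
  obtain ⟨L0, hL0⟩ := hL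
  have hL1 : ∀ a b, NX (f a - f b) ≤ |L0| * dist a b := fun a b =>
    le_trans (hL0 a b) (mul_le_mul_of_nonneg_right (le_abs_self L0) dist_nonneg)
  obtain ⟨T, hT1, hT2⟩ := free_extend p o (X := PN hX) (PN.norm_smul hX) f hf (|L0| ^ p)
    (Real.rpow_nonneg (abs_nonneg _) p) (key _ (abs_nonneg _) hL1)
  refine ⟨T, hT1, fun L hL h y => ?_⟩
  have h1 := hT2 (L ^ p) (Real.rpow_nonneg hL p) (key L hL h) y
  rw [PN.norm_def, ← freeN_rpow, ← Real.mul_rpow hL (freeN_nonneg p o y)] at h1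
  exact (Real.rpow_le_rpow_iff (hX.nonneg _) (mul_nonneg hL (freeN_nonneg p o y)) hp0).1 h1

end Construction

/-- A bounded operator vanishing on a dense span vanishes. -/
lemma eq_zero_of_dense {p : ℝ} {Y X : Type} [AddCommGroup Y] [Module ℝ Y] [AddCommGroup X]
    [Module ℝ X] {N : Y → ℝ} {NX : X → ℝ} (hN : ∀ y, 0 ≤ N y) (hX : IsPBanach p NX) (hp : 0 < p)
    {S : Set Y} (hd : ∀ (y : Y) (ε : ℝ), 0 < ε → ∃ z ∈ Submodule.span ℝ S, N (y - z) < ε)
    (T T' : Y →ₗ[ℝ] X) (C C' : ℝ) (hC : ∀ y, NX (T y) ≤ C * N y) (hC' : ∀ y, NX (T' y) ≤ C' * N y)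
    (h : ∀ s ∈ S, T s = T' s) : T = T' := by
  ext y
  rw [← sub_eq_zero]
  refine hX.eq_zero _ ?_
  have key : ∀ ε : ℝ, 0 < ε → NX (T y - T' y) ^ p ≤ (|C| * ε) ^ p + (|C'| * ε) ^ p := by
    intro ε hε
    obtain ⟨z, hz, hyz⟩ := hd y ε hε
    have hz' : T z = T' z := LinearMap.eqOn_span h hz
    have e : T y - T' y = T (y - z) + -(T' (y - z)) := by
      rw [map_sub, map_sub, hz']; abel
    rw [e]
    refine le_trans (hX.triangle _ _) (add_le_add ?_ ?_)
    · refine Real.rpow_le_rpow (hX.nonneg _) (le_trans (hC _) ?_) hp.le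
      exact mul_le_mul (le_abs_self C) hyz.le (hN _) (abs_nonneg C)
    · rw [hX.neg]
      refine Real.rpow_le_rpow (hX.nonneg _) (le_trans (hC' _) ?_) hp.le
      exact mul_le_mul (le_abs_self C') hyz.le (hN _) (abs_nonneg C')
  have hlim : Tendsto (fun ε : ℝ => (|C| * ε) ^ p + (|C'| * ε) ^ p) (𝓝[>] 0) (𝓝 0) := by
    have h1 : ∀ c : ℝ, Tendsto (fun ε : ℝ => (c * ε) ^ p) (𝓝[>] 0) (𝓝 0) := by
      intro c
      have h2 : Tendsto (fun ε : ℝ => c * ε) (𝓝[>] 0) (𝓝 0) := by
        have : Tendsto (fun ε : ℝ => c * ε) (𝓝 0) (𝓝 (c * 0)) :=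
          (continuous_const.mul continuous_id).tendsto 0
        rw [mul_zero] at this
        exact this.mono_left nhdsWithin_le_nhds
      have h3 := h2.rpow_const (p := p) (Or.inr hp.le)
      rwa [Real.zero_rpow hp.ne'] at h3
    simpa using (h1 |C|).add (h1 |C'|)
  have h0 : NX (T y - T' y) ^ p ≤ 0 :=
    ge_of_tendsto hlim (eventually_nhdsWithin_of_forall fun ε hε => key ε hε)
  exact (Real.rpow_eq_zero (hX.nonneg _) hp.ne').1
    (le_antisymm h0 (Real.rpow_nonneg (hX.nonneg _) p))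

lemma abs_isPBanach {p : ℝ} (hp : 0 < p) (hp1 : p ≤ 1) : IsPBanach p (fun x : ℝ => |x|) :=
  haveI : Fact (0 < p) := ⟨hp⟩
  abs_isPBanach' p hp1

theorem exists_free {p : ℝ} (hp : 0 < p) (hp1 : p ≤ 1) {M : Type} [MetricSpace M] (o : M) :
    ∃ (Y : Type) (_ : AddCommGroup Y) (_ : Module ℝ Y) (N : Y → ℝ) (δ : M → Y),
      IsFree p o N δ := by
  have : Fact (0 < p) := ⟨hp⟩
  have : Fact (p ≤ 1) := ⟨hp1⟩
  refine ⟨FreeP p o, inferInstance, inferInstance, freeN p o, freeδ p o, freeN_isPBanach p o,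
    freeδ_base p o, ?_, free_dense p o, ?_⟩
  · intro a b
    refine le_antisymm (freeδ_le p o a b) ?_
    have hlip : ∀ x y : M, |(dist x b - dist o b) - (dist y b - dist o b)| ≤ 1 * dist x y := by
      intro x y
      rw [one_mul, sub_sub_sub_cancel_right]
      exact abs_dist_sub_le x y b
    obtain ⟨T, hT1, hT2⟩ := free_univ p o ℝ (fun x => |x|) (abs_isPBanach hp hp1)
      (fun x => dist x b - dist o b) (sub_self _) ⟨1, hlip⟩
    have := hT2 1 zero_le_one hlip (freeδ p o a - freeδ p o b)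
    rw [map_sub, hT1, hT1, one_mul] at this
    simpa using this
  · intro X _ _ NX hX f hf hL
    obtain ⟨T, hT1, hT2⟩ := free_univ p o X NX hX f hf hL
    refine ⟨T, hT1, fun L hL0 => ⟨fun h a b => ?_, hT2 L hL0⟩, ?_⟩
    · rw [← hT1, ← hT1, ← map_sub]
      exact le_trans (h _) (mul_le_mul_of_nonneg_left (freeδ_le p o a b) hL0)
    · rintro T' ⟨C, hC⟩ hT'
      obtain ⟨L0, hL0⟩ := hL
      have hL1 : ∀ a b, NX (f a - f b) ≤ |L0| * dist a b := fun a b =>
        le_trans (hL0 a b) (mul_le_mul_of_nonneg_right (le_abs_self L0) dist_nonneg)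
      refine eq_zero_of_dense (freeN_nonneg p o) hX hp (free_dense p o) T' T C |L0| hC
        (hT2 _ (abs_nonneg _) hL1) ?_
      rintro _ ⟨a, rfl⟩
      rw [hT', hT1]

end Pool.Agent.Work.MP_f25c59_an
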