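import Mathlib
import Pool.Agent.Work.MP_f25c59_an.Free

-- merged part: Pool.Agent.Work.MP_f25c59_an.Lift
section
/-!
A discrete Godefroy-Kalton type lifting, carried out in a commutative algebra `A` with a
multiplicative family `X v` (the group algebra of a normed space).
-/

set_option autoImplicit false
set_option linter.unusedSectionVars false

namespace Pool.Agent.Work.MP_f25c59_an

open Finset

variable {V : Type} [NormedAddCommGroup V] [NormedSpace ℝ V]
variable {A : Type} [CommRing A] [Algebra ℝ A]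

/-- `L1 X μ c`: `μ` is a finite combination of the `X z` with coefficients of total size `≤ c`. -/
inductive L1 (X : V → A) : A → ℝ → Prop
  | one (c : ℝ) (z : V) : L1 X (c • X z) |c|
  | zero : L1 X 0 0
  | add {μ ν : A} {a b : ℝ} : L1 X μ a → L1 X ν b → L1 X (μ + ν) (a + b)
  | mono {μ : A} {a b : ℝ} : L1 X μ a → a ≤ b → L1 X μ b

/-- `Mol X μ c`: `μ` is a finite combination of differences with transport cost `≤ c`. -/
inductive Mol (X : V → A) : A → ℝ → Prop
  | one (c : ℝ) (x y : V) : Mol X (c • (X x - X y)) (|c| * ‖x - y‖)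
  | zero : Mol X 0 0
  | add {μ ν : A} {a b : ℝ} : Mol X μ a → Mol X ν b → Mol X (μ + ν) (a + b)
  | mono {μ : A} {a b : ℝ} : Mol X μ a → a ≤ b → Mol X μ b

/-- The Bernoulli average. -/
noncomputable def bern (X : V → A) (v : V) : A := (1 / 2 : ℝ) • (1 + X v)

/-- `Prob X P ρ`: `P` is a product of Bernoulli averages of vectors of total norm `≤ ρ`. -/
inductive Prob (X : V → A) : A → ℝ → Prop
  | one : Prob X 1 0
  | step {P : A} {ρ : ℝ} (v : V) : Prob X P ρ → Prob X (P * bern X v) (ρ + ‖v‖)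
  | mono {P : A} {a b : ℝ} : Prob X P a → a ≤ b → Prob X P b

/-- Multiplicativity of `X`. -/
structure IsChar (X : V → A) : Prop where
  zero : X 0 = 1
  add : ∀ u v, X (u + v) = X u * X v

variable {X : V → A}

lemma L1.nonneg {μ : A} {a : ℝ} (h : L1 X μ a) : 0 ≤ a := by
  induction h with
  | one c z => exact abs_nonneg c
  | zero => exact le_rfl
  | add _ _ h1 h2 => exact add_nonneg h1 h2
  | mono _ hab h1 => exact le_trans h1 hab

lemma L1.smul {μ : A} {a : ℝ} (h : L1 X μ a) (t : ℝ) : L1 X (t • μ) (|t| * a) := by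
  induction h with
  | one c z => rw [smul_smul, ← abs_mul]; exact L1.one _ _
  | zero => simpa using L1.zero
  | add _ _ h1 h2 => rw [smul_add, mul_add]; exact h1.add h2
  | mono _ hab h1 => exact h1.mono (mul_le_mul_of_nonneg_left hab (abs_nonneg t))

lemma Mol.smul {μ : A} {a : ℝ} (h : Mol X μ a) (t : ℝ) : Mol X (t • μ) (|t| * a) := by
  induction h with
  | one c x y => rw [smul_smul, ← mul_assoc, ← abs_mul]; exact Mol.one _ _ _
  | zero => simpa using Mol.zero
  | add _ _ h1 h2 => rw [smul_add, mul_add]; exact h1.add h2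
  | mono _ hab h1 => exact h1.mono (mul_le_mul_of_nonneg_left hab (abs_nonneg t))

lemma Mol.neg {μ : A} {a : ℝ} (h : Mol X μ a) : Mol X (-μ) a := by
  simpa using h.smul (-1)

lemma L1.neg {μ : A} {a : ℝ} (h : L1 X μ a) : L1 X (-μ) a := by
  simpa using h.smul (-1)

lemma Mol.sum {ι : Type} (s : Finset ι) (μ : ι → A) (a : ℝ) (h : ∀ i ∈ s, Mol X (μ i) a) :
    Mol X (∑ i ∈ s, μ i) (s.card * a) := by
  classical
  induction s using Finset.induction_on with
  | empty => simpa using Mol.zero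
  | insert i s hi ih =>
    rw [sum_insert hi, card_insert_of_notMem hi]
    have := (h i (mem_insert_self i s)).add (ih fun j hj => h j (mem_insert_of_mem hj))
    refine this.mono (le_of_eq ?_)
    push_cast; ring

lemma L1.single (z : V) : L1 X (X z) 1 := by simpa using L1.one (X := X) 1 z

lemma L1.mul_X (hX : IsChar X) {μ : A} {a : ℝ} (h : L1 X μ a) (z : V) : L1 X (μ * X z) a := by
  induction h with
  | one c w => rw [smul_mul_assoc, ← hX.add]; exact L1.one _ _
  | zero => simpa using L1.zero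
  | add _ _ h1 h2 => rw [add_mul]; exact h1.add h2
  | mono _ hab h1 => exact h1.mono hab

lemma L1.mul (hX : IsChar X) {μ ν : A} {a b : ℝ} (h : L1 X μ a) (h' : L1 X ν b) :
    L1 X (μ * ν) (a * b) := by
  induction h' with
  | one c w => rw [mul_smul_comm, mul_comm a]; exact (h.mul_X hX w).smul c
  | zero => simpa using L1.zero
  | add _ _ h1 h2 => rw [mul_add, mul_add]; exact h1.add h2
  | mono _ hab h1 => exact h1.mono (mul_le_mul_of_nonneg_left hab h.nonneg)

lemma L1.unit (hX : IsChar X) : L1 X 1 1 := hX.zero ▸ L1.single 0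

lemma L1.X_sub_one (hX : IsChar X) (v : V) : L1 X (X v - 1) 2 := by
  have := (L1.single (X := X) v).add (L1.unit hX).neg
  rw [← sub_eq_add_neg] at this
  exact this.mono (by norm_num)

lemma L1.bern (hX : IsChar X) (v : V) : L1 X (bern X v) 1 := by
  have := ((L1.unit hX).add (L1.single (X := X) v)).smul (1 / 2)
  exact this.mono (by norm_num [abs_of_pos])

/-- The basic estimate. -/
lemma L1.mol (hX : IsChar X) {μ : A} {a : ℝ} (h : L1 X μ a) (v : V) :
    Mol X (μ * (X v - 1)) (a * ‖v‖) := by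
  induction h with
  | one c w =>
    have := Mol.one (X := X) c (w + v) w
    rw [add_sub_cancel_left, hX.add] at this
    rw [smul_mul_assoc, mul_sub, mul_one]
    exact this
  | zero => simpa using Mol.zero
  | add _ _ h1 h2 => rw [add_mul, add_mul]; exact h1.add h2
  | mono _ hab h1 => exact h1.mono (mul_le_mul_of_nonneg_right hab (norm_nonneg v))

lemma Prob.l1 (hX : IsChar X) {P : A} {ρ : ℝ} (h : Prob X P ρ) : L1 X P 1 := by
  induction h with
  | one => exact L1.unit hX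
  | step v _ ih => simpa using ih.mul hX (L1.bern hX v)
  | mono _ _ ih => exact ih

lemma Prob.mul {P Q : A} {ρ ρ' : ℝ} (h : Prob X P ρ) (h' : Prob X Q ρ') :
    Prob X (P * Q) (ρ + ρ') := by
  induction h' with
  | one => simpa using h
  | step v _ ih => rw [← mul_assoc, ← add_assoc]; exact ih.step v
  | mono _ hab ih => exact ih.mono (by linarith)

lemma Prob.prod {ι : Type} (s : Finset ι) (P : ι → A) (ρ : ℝ) (h : ∀ i ∈ s, Prob X (P i) ρ) :
    Prob X (∏ i ∈ s, P i) (s.card * ρ) := by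
  classical
  induction s using Finset.induction_on with
  | empty => simpa using Prob.one
  | insert i s hi ih =>
    rw [prod_insert hi, card_insert_of_notMem hi]
    have := (h i (mem_insert_self i s)).mul (ih fun j hj => h j (mem_insert_of_mem hj))
    refine this.mono (le_of_eq ?_)
    push_cast; ring

lemma Prob.mol (hX : IsChar X) {P μ : A} {ρ a : ℝ} (h : Prob X P ρ) (hμ : L1 X μ a) :
    Mol X (μ * (P - 1)) (a * ρ) := by
  induction h with
  | one => simpa using Mol.zero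
  | @step P ρ v hP ih =>
    have h1 := ((hμ.mul hX (hP.l1 hX)).mol hX v).smul (1 / 2)
    have e : μ * (P * bern X v - 1) = μ * (P - 1) + (1 / 2 : ℝ) • (μ * P * (X v - 1)) := by
      unfold bern
      simp only [Algebra.smul_def]
      have h2 : (algebraMap ℝ A (1 / 2)) * 2 = 1 := by
        rw [← map_ofNat (algebraMap ℝ A) 2, ← map_mul]; norm_num
      linear_combination (μ * P) * h2
    rw [e]
    refine (ih.add h1).mono ?_
    have := hμ.nonneg
    have := norm_nonneg v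
    rw [abs_of_pos (by norm_num : (0 : ℝ) < 1 / 2)]
    nlinarith
  | mono _ hab ih => exact ih.mono (mul_le_mul_of_nonneg_left hab hμ.nonneg)

lemma Prob.bary (hX : IsChar X) {P : A} {ρ : ℝ} (h : Prob X P ρ) (ℓ : A →ₗ[ℝ] ℝ) (c : V →ₗ[ℝ] ℝ)
    (hℓ : ∀ v, ℓ (X v) = c v) (y : V) : ∀ z, ℓ (P * (X z * (X y - 1))) = c y := by
  induction h with
  | one =>
    intro z
    rw [one_mul, mul_sub, mul_one, ← hX.add, map_sub, hℓ, hℓ, map_add]; ring
  | @step P ρ v _ ih =>
    intro z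
    have e : P * bern X v * (X z * (X y - 1)) =
        (1 / 2 : ℝ) • (P * (X z * (X y - 1)) + P * (X (v + z) * (X y - 1))) := by
      unfold bern
      rw [hX.add]
      simp only [Algebra.smul_def]
      ring
    rw [e, map_smul, map_add, ih, ih, smul_eq_mul]; ring
  | mono _ _ ih => exact ih

/-- Dyadic average along the segment `[0, x]`. -/
noncomputable def avg (X : V → A) (x : V) : ℕ → A
  | 0 => 1
  | R + 1 => avg X x R * bern X (((1 / 2 : ℝ) ^ (R + 1)) • x)

lemma avg_prob (x : V) (R : ℕ) : Prob X (avg X x R) ‖x‖ := by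
  have : ∀ R : ℕ, Prob X (avg X x R) ((1 - (1 / 2 : ℝ) ^ R) * ‖x‖) := by
    intro R
    induction R with
    | zero => simpa [avg] using Prob.one
    | succ R ih =>
      refine (ih.step (((1 / 2 : ℝ) ^ (R + 1)) • x)).mono (le_of_eq ?_)
      rw [norm_smul, Real.norm_eq_abs, abs_of_pos (by positivity)]
      ring
  refine (this R).mono ?_
  have h1 : (0 : ℝ) < (1 / 2) ^ R := by positivity
  nlinarith [norm_nonneg x]

lemma avg_mul (hX : IsChar X) (x : V) (R : ℕ) :
    avg X x R * (X (((1 / 2 : ℝ) ^ R) • x) - 1) = ((1 / 2 : ℝ) ^ R) • (X x - 1) := by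
  induction R with
  | zero => simp [avg]
  | succ R ih =>
    have e : ((1 / 2 : ℝ) ^ R) • x = ((1 / 2 : ℝ) ^ (R + 1)) • x + ((1 / 2 : ℝ) ^ (R + 1)) • x := by
      rw [← add_smul]; congr 1; ring
    rw [e, hX.add] at ih
    have e2 : avg X x (R + 1) * (X (((1 / 2 : ℝ) ^ (R + 1)) • x) - 1) =
        (1 / 2 : ℝ) • (avg X x R * (X (((1 / 2 : ℝ) ^ (R + 1)) • x) *
          X (((1 / 2 : ℝ) ^ (R + 1)) • x) - 1)) := by
      simp only [avg, bern, Algebra.smul_def]
      ring
    rw [e2, ih, smul_smul]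
    congr 1; ring

/-- Almost additivity of `v ↦ P (X v - 1)` on small vectors. -/
lemma stage (hX : IsChar X) {ι : Type} (P : A) (y : ι → V) (θ : ι → ℝ) (κ ρ : ℝ)
    (hθ : ∀ i, θ i = 1 ∨ θ i = -1) (hκ : ∀ i, L1 X (P * (X (y i) - 1)) κ) (hρ : ∀ i, ‖y i‖ ≤ ρ)
    (s : Finset ι) :
    Mol X (∑ i ∈ s, θ i • (P * (X (y i) - 1)) - P * (X (∑ i ∈ s, θ i • y i) - 1))
      ((s.card : ℝ) ^ 2 * (κ * ρ)) := by
  classical
  induction s using Finset.induction_on with
  | empty => simpa [hX.zero] using Mol.zero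
  | insert i s hi ih =>
    have hκ0 := (hκ i).nonneg
    have hρ0 : 0 ≤ ρ := le_trans (norm_nonneg _) (hρ i)
    have hv : ‖∑ j ∈ s, θ j • y j‖ ≤ s.card * ρ := by
      refine le_trans (norm_sum_le _ _) ?_
      have : ∀ j ∈ s, ‖θ j • y j‖ ≤ ρ := by
        intro j _
        rcases hθ j with h | h <;> simpa [h] using hρ j
      simpa using Finset.sum_le_card_nsmul s _ ρ this
    have h1 : L1 X (P * (X (θ i • y i) - 1)) κ ∧
        Mol X (θ i • (P * (X (y i) - 1)) - P * (X (θ i • y i) - 1)) (κ * ρ) := by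
      rcases hθ i with h | h
      · rw [h, one_smul, one_smul, sub_self]
        exact ⟨hκ i, Mol.zero.mono (by positivity)⟩
      · have hinv : X (-y i) * X (y i) = 1 := by rw [← hX.add, neg_add_cancel, hX.zero]
        have e : P * (X (-y i) - 1) = -(P * (X (y i) - 1) * X (-y i)) := by
          linear_combination P * hinv
        rw [h, neg_one_smul, neg_one_smul, e]
        refine ⟨((hκ i).mul_X hX _).neg, ?_⟩
        have := (hκ i).mol hX (-y i)
        rw [norm_neg] at this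
        have e2 : -(P * (X (y i) - 1)) - -(P * (X (y i) - 1) * X (-y i)) =
            P * (X (y i) - 1) * (X (-y i) - 1) := by ring
        rw [e2]
        exact this.mono (mul_le_mul_of_nonneg_left (hρ i) hκ0)
    have h2 := (h1.1.mol hX (∑ j ∈ s, θ j • y j)).neg
    rw [sum_insert hi, sum_insert hi, card_insert_of_notMem hi, hX.add]
    have := (ih.add h1.2).add h2
    convert this.mono (b := ((s.card + 1 : ℕ) : ℝ) ^ 2 * (κ * ρ)) ?_ using 1
    · ring
    · have h3 : κ * ‖∑ j ∈ s, θ j • y j‖ ≤ κ * (s.card * ρ) := mul_le_mul_of_nonneg_left hv hκ0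
      have h4 : 0 ≤ κ * ρ := by positivity
      have h5 : (0 : ℝ) ≤ s.card := Nat.cast_nonneg _
      push_cast
      nlinarith

/-- One refinement step. -/
lemma refine_step (hX : IsChar X) {J J' : Type} [Fintype J] [Fintype J'] (e : J → V) (e' : J' → V)
    (he : ∀ j, ‖e j‖ ≤ 1) (he' : ∀ j, ‖e' j‖ ≤ 1) (P : A) (t K : ℝ) (hP : ∃ ρ, Prob X P ρ)
    (ht : 0 < t) (hK : 0 ≤ K) (hL : ∀ j, L1 X (P * (X (t • e j) - 1)) (K * t)) (b : ℝ)
    (hb : 0 < b) :
    ∃ (P' : A) (t' : ℝ), (∃ ρ, Prob X P' ρ) ∧ 0 < t' ∧ t' ≤ b ∧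
      (∀ j, L1 X (P' * (X ((2 * t') • e j) - 1)) ((K + 2 / t) * (2 * t'))) ∧
      (∀ j, L1 X (P' * (X (t' • e' j) - 1)) ((K + 2 / t) * t')) ∧
      ∀ j, Mol X ((2 * t')⁻¹ • (P' * (X ((2 * t') • e j) - 1)) - t⁻¹ • (P * (X (t • e j) - 1)))
        (K * t * (Fintype.card J + Fintype.card J')) := by
  classical
  obtain ⟨ρ, hP⟩ := hP
  obtain ⟨R, hR⟩ := exists_pow_lt_of_lt_one (show 0 < b / t by positivity)
    (show (1 / 2 : ℝ) < 1 by norm_num)
  have hpr : ∀ j, Prob X (avg X (t • e j) R) t := fun j => (avg_prob _ R).mono (by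
    rw [norm_smul, Real.norm_eq_abs, abs_of_pos ht]; nlinarith [he j])
  have hpr' : ∀ j, Prob X (avg X (t • e' j) (R + 1)) t := fun j => (avg_prob _ _).mono (by
    rw [norm_smul, Real.norm_eq_abs, abs_of_pos ht]; nlinarith [he' j])
  have hR0 : (0 : ℝ) < (1 / 2) ^ R := by positivity
  have hKt : 0 < 2 / t := by positivity
  refine ⟨P * (∏ j, avg X (t • e j) R) * ∏ j, avg X (t • e' j) (R + 1), (1 / 2) ^ (R + 1) * t,
    ⟨_, (hP.mul (Prob.prod _ _ t fun j _ => hpr j)).mul (Prob.prod _ _ t fun j _ => hpr' j)⟩,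
    by positivity, ?_, ?_, ?_, ?_⟩
  · rw [lt_div_iff₀ ht] at hR
    rw [pow_succ]
    nlinarith
  all_goals
    intro j
  · have hB := (Prob.prod (univ.erase j) _ t fun i _ => hpr i).mul
      (Prob.prod univ _ t fun i _ => hpr' i)
    have e1 : (2 * ((1 / 2 : ℝ) ^ (R + 1) * t)) • e j = ((1 / 2 : ℝ) ^ R) • t • e j := by
      rw [smul_smul]; congr 1; ring
    have e2 : P * (∏ j, avg X (t • e j) R) * (∏ j, avg X (t • e' j) (R + 1)) *
        (X (((1 / 2 : ℝ) ^ R) • t • e j) - 1) = ((1 / 2 : ℝ) ^ R) • ((P * (X (t • e j) - 1)) *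
        ((∏ i ∈ univ.erase j, avg X (t • e i) R) * ∏ j, avg X (t • e' j) (R + 1))) := by
      rw [← Finset.mul_prod_erase univ _ (mem_univ j), ← smul_mul_assoc, ← mul_smul_comm,
        ← avg_mul hX]
      ring
    rw [e1, e2]
    refine (((hL j).mul hX (hB.l1 hX)).smul _).mono ?_
    rw [abs_of_pos hR0, pow_succ]
    have : 0 ≤ (1 / 2 : ℝ) ^ R * (2 / t * t) := by positivity
    nlinarith
  · have hB := hP.mul ((Prob.prod univ _ t fun i _ => hpr i).mul
      (Prob.prod (univ.erase j) _ t fun i _ => hpr' i))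
    have e1 : ((1 / 2 : ℝ) ^ (R + 1) * t) • e' j = ((1 / 2 : ℝ) ^ (R + 1)) • t • e' j := by
      rw [smul_smul]
    have e2 : P * (∏ j, avg X (t • e j) R) * (∏ j, avg X (t • e' j) (R + 1)) *
        (X (((1 / 2 : ℝ) ^ (R + 1)) • t • e' j) - 1) = ((1 / 2 : ℝ) ^ (R + 1)) •
        ((X (t • e' j) - 1) * (P * ((∏ i, avg X (t • e i) R) *
          ∏ i ∈ univ.erase j, avg X (t • e' i) (R + 1)))) := by
      rw [← Finset.mul_prod_erase univ _ (mem_univ j), ← smul_mul_assoc, ← avg_mul hX]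
      ring
    rw [e1, e2]
    refine (((L1.X_sub_one hX _).mul hX (hB.l1 hX)).smul _).mono ?_
    have hR1 : (0 : ℝ) < (1 / 2) ^ (R + 1) := by positivity
    rw [abs_of_pos hR1]
    have e3 : (K + 2 / t) * ((1 / 2 : ℝ) ^ (R + 1) * t) =
        (1 / 2 : ℝ) ^ (R + 1) * (K * t) + (1 / 2 : ℝ) ^ (R + 1) * (2 * 1) := by
      field_simp
    rw [e3]
    have : 0 ≤ (1 / 2 : ℝ) ^ (R + 1) * (K * t) := by positivity
    linarith
  · have hB := (Prob.prod (univ.erase j) _ t fun i _ => hpr i).mul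
      (Prob.prod univ _ t fun i _ => hpr' i)
    have e1 : (2 * ((1 / 2 : ℝ) ^ (R + 1) * t)) • e j = ((1 / 2 : ℝ) ^ R) • t • e j := by
      rw [smul_smul]; congr 1; ring
    have e2 : P * (∏ j, avg X (t • e j) R) * (∏ j, avg X (t • e' j) (R + 1)) *
        (X (((1 / 2 : ℝ) ^ R) • t • e j) - 1) = ((1 / 2 : ℝ) ^ R) • ((P * (X (t • e j) - 1)) *
        ((∏ i ∈ univ.erase j, avg X (t • e i) R) * ∏ j, avg X (t • e' j) (R + 1))) := by
      rw [← Finset.mul_prod_erase univ _ (mem_univ j), ← smul_mul_assoc, ← mul_smul_comm,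
        ← avg_mul hX]
      ring
    have e3 : (2 * ((1 / 2 : ℝ) ^ (R + 1) * t))⁻¹ * (1 / 2 : ℝ) ^ R = t⁻¹ := by
      rw [pow_succ]; field_simp
    rw [e1, e2, smul_smul, e3, ← smul_sub, ← mul_sub_one]
    refine ((hB.mol hX (hL j)).smul _).mono ?_
    rw [abs_of_pos (inv_pos.2 ht), card_univ]
    have h1 : ((univ.erase j).card : ℝ) ≤ Fintype.card J := by
      exact_mod_cast card_le_univ _
    have e4 : t⁻¹ * (K * t * (((univ.erase j).card : ℝ) * t + Fintype.card J' * t)) =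
        K * t * (((univ.erase j).card : ℝ) + Fintype.card J') := by field_simp
    rw [e4]
    exact mul_le_mul_of_nonneg_left (by linarith) (by positivity)

/-- The lifting. -/
theorem lift_exists (hX : IsChar X) (J : ℕ → Type) [∀ n, Fintype (J n)] (e : ∀ n, J n → V)
    (he : ∀ n j, ‖e n j‖ ≤ 1) :
    ∃ u : ∀ n, J n → A, (∀ n j, Mol X (u n j) 1) ∧
      (∀ n j (ℓ : A →ₗ[ℝ] ℝ) (c : V →ₗ[ℝ] ℝ), (∀ v, ℓ (X v) = c v) → ℓ (u n j) = c (e n j)) ∧
      ∀ n (θ : J n → ℝ) (θ' : J (n + 1) → ℝ), (∀ j, θ j = 1 ∨ θ j = -1) →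
        (∀ j, θ' j = 1 ∨ θ' j = -1) →
        Mol X (∑ j, θ' j • u (n + 1) j + ∑ j, (2 * θ j) • u n j)
          (‖∑ j, θ' j • e (n + 1) j + ∑ j, (2 * θ j) • e n j‖ + 1) := by
  classical
  let m : ℕ → ℝ := fun n => (Fintype.card (J n) : ℝ) + Fintype.card (J (n + 1))
  have hm : ∀ n, 0 ≤ m n := fun n => by positivity
  let D : ℕ → ℝ := fun n => 4 * m n ^ 2 + Fintype.card (J (n + 1)) * m (n + 1)
  have hD : ∀ n, 0 ≤ D n := fun n => by have := hm (n + 1); positivity
  let Good : ℕ → A × ℝ × ℝ → Prop := fun n s =>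
    (∃ ρ, Prob X s.1 ρ) ∧ 0 < s.2.1 ∧ 0 ≤ s.2.2 ∧
      ∀ j, L1 X (s.1 * (X (s.2.1 • e n j) - 1)) (s.2.2 * s.2.1)
  let Rel : ℕ → A × ℝ × ℝ → A × ℝ × ℝ → Prop := fun n s s' =>
    s'.2.2 * s'.2.1 * D n ≤ 1 ∧
      (∀ j, L1 X (s'.1 * (X ((2 * s'.2.1) • e n j) - 1)) (s'.2.2 * (2 * s'.2.1))) ∧
      ∀ j, Mol X ((2 * s'.2.1)⁻¹ • (s'.1 * (X ((2 * s'.2.1) • e n j) - 1)) -
        s.2.1⁻¹ • (s.1 * (X (s.2.1 • e n j) - 1))) (s.2.2 * s.2.1 * m n)
  have hstep : ∀ n (s : {s // Good n s}), ∃ s' : {s // Good (n + 1) s}, Rel n s.1 s'.1 := by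
    rintro n ⟨⟨P, t, K⟩, hP, ht, hK, hL⟩
    dsimp only at hP ht hK hL
    have hK' : 0 < K + 2 / t := by positivity
    have hDn := hD n
    obtain ⟨P', t', g1, g2, g3, g4, g5, g6⟩ := refine_step hX (e n) (e (n + 1)) (he n) (he (n + 1))
      P t K hP ht hK hL (1 / ((K + 2 / t) * (D n + 1))) (by positivity)
    refine ⟨⟨(P', t', K + 2 / t), g1, g2, hK'.le, g5⟩, ?_, g4, g6⟩
    dsimp only
    rw [le_div_iff₀ (by positivity)] at g3
    nlinarith [mul_pos hK' g2]
  choose nxt hnxt using hstep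
  have h0 : Good 0 (1, 1, 2) := ⟨⟨0, Prob.one⟩, one_pos, by norm_num, fun j => by
    simpa using L1.X_sub_one hX (e 0 j)⟩
  let st : ∀ n, {s // Good n s} := fun n => Nat.rec (motive := fun n => {s // Good n s})
    ⟨(1, 1, 2), h0⟩ (fun n s => nxt n s) n
  have hst : ∀ n, Rel n (st n).1 (st (n + 1)).1 := fun n => hnxt n (st n)
  let P : ℕ → A := fun n => (st n).1.1
  let t : ℕ → ℝ := fun n => (st n).1.2.1
  let K : ℕ → ℝ := fun n => (st n).1.2.2
  have hP : ∀ n, ∃ ρ, Prob X (P n) ρ := fun n => (st n).2.1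
  have ht : ∀ n, 0 < t n := fun n => (st n).2.2.1
  have hK : ∀ n, 0 ≤ K n := fun n => (st n).2.2.2.1
  have hL : ∀ n j, L1 X (P n * (X (t n • e n j) - 1)) (K n * t n) := fun n => (st n).2.2.2.2
  have hS : ∀ n, K (n + 1) * t (n + 1) * D n ≤ 1 := fun n => (hst n).1
  have hL2 : ∀ n j, L1 X (P (n + 1) * (X ((2 * t (n + 1)) • e n j) - 1))
      (K (n + 1) * (2 * t (n + 1))) := fun n => (hst n).2.1
  have hM : ∀ n j, Mol X ((2 * t (n + 1))⁻¹ • (P (n + 1) * (X ((2 * t (n + 1)) • e n j) - 1)) -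
      (t n)⁻¹ • (P n * (X (t n • e n j) - 1))) (K n * t n * m n) := fun n => (hst n).2.2
  clear_value P t K
  refine ⟨fun n j => (2 * t (n + 1))⁻¹ • (P (n + 1) * (X ((2 * t (n + 1)) • e n j) - 1)),
    ?_, ?_, ?_⟩
  · intro n j
    obtain ⟨ρ, hρ⟩ := hP (n + 1)
    have h2 : 0 < 2 * t (n + 1) := by have := ht (n + 1); positivity
    refine (((hρ.l1 hX).mol hX _).smul _).mono ?_
    rw [abs_of_pos (inv_pos.2 h2), norm_smul, Real.norm_eq_abs, abs_of_pos h2, one_mul,
      ← mul_assoc, inv_mul_cancel₀ h2.ne', one_mul]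
    exact he n j
  · intro n j ℓ c hℓ
    obtain ⟨ρ, hρ⟩ := hP (n + 1)
    have h2 : 0 < 2 * t (n + 1) := by have := ht (n + 1); positivity
    have := hρ.bary hX ℓ c hℓ ((2 * t (n + 1)) • e n j) 0
    rw [hX.zero, one_mul] at this
    rw [map_smul, this, map_smul, smul_eq_mul, smul_eq_mul, ← mul_assoc, inv_mul_cancel₀ h2.ne',
      one_mul]
  · intro n θ θ' hθ hθ'
    obtain ⟨ρ, hρ⟩ := hP (n + 1)
    have htn := ht (n + 1)
    have hKn := hK (n + 1)
    set s := t (n + 1) with hs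
    set ψ := ∑ j, θ' j • e (n + 1) j + ∑ j, (2 * θ j) • e n j with hψ
    have h1 := stage hX (ι := J (n + 1) ⊕ J n) (P (n + 1))
      (Sum.elim (fun j => s • e (n + 1) j) (fun j => (2 * s) • e n j)) (Sum.elim θ' θ)
      (K (n + 1) * (2 * s)) (2 * s) (by rintro (j | j); exacts [hθ' j, hθ j])
      (by
        rintro (j | j)
        · exact (hL (n + 1) j).mono (by nlinarith)
        · exact hL2 n j)
      (by
        rintro (j | j)
        · simp only [Sum.elim_inl]
          rw [norm_smul, Real.norm_eq_abs, abs_of_pos htn]; nlinarith [he (n + 1) j]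
        · simp only [Sum.elim_inr]
          rw [norm_smul, Real.norm_eq_abs, abs_of_pos (by positivity)]; nlinarith [he n j]) univ
    rw [Fintype.sum_sum_type, Fintype.sum_sum_type] at h1
    simp only [Sum.elim_inl, Sum.elim_inr] at h1
    have e1 : ∑ j, θ' j • s • e (n + 1) j + ∑ j, θ j • (2 * s) • e n j = s • ψ := by
      rw [hψ, smul_add, Finset.smul_sum, Finset.smul_sum]
      congr 1
      · exact Finset.sum_congr rfl fun j _ => smul_comm _ _ _
      · refine Finset.sum_congr rfl fun j _ => ?_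
        rw [smul_smul, smul_smul]; congr 1; ring
    rw [e1] at h1
    have h2 := (hρ.l1 hX).mol hX (s • ψ)
    have h3 := (h1.add h2).smul s⁻¹
    have h4 := Mol.sum univ (fun j => θ' j • ((2 * t (n + 1 + 1))⁻¹ • (P (n + 1 + 1) *
        (X ((2 * t (n + 1 + 1)) • e (n + 1) j) - 1)) - s⁻¹ • (P (n + 1) * (X (s • e (n + 1) j) - 1))))
        (K (n + 1) * s * m (n + 1)) (fun j _ => by
          refine ((hM (n + 1) j).smul (θ' j)).mono (le_of_eq ?_)
          rcases hθ' j with h | h <;> simp [h, hs])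
    convert (h3.add h4).mono (b := ‖ψ‖ + 1) ?_ using 1
    · rw [sub_add_cancel, smul_add, Finset.smul_sum, Finset.smul_sum, add_right_comm,
        ← Finset.sum_add_distrib]
      congr 1
      · refine Finset.sum_congr rfl fun j _ => ?_
        rw [smul_sub, smul_comm s⁻¹ (θ' j), add_sub_cancel]
      · refine Finset.sum_congr rfl fun j _ => ?_
        rw [smul_smul, smul_smul, ← hs]; congr 1; field_simp
    · rw [abs_of_pos (inv_pos.2 htn), norm_smul, Real.norm_eq_abs, abs_of_pos htn, card_univ,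
        card_univ, Fintype.card_sum]
      have h5 := hS n
      have e2 : s⁻¹ * ((((Fintype.card (J (n + 1)) + Fintype.card (J n) : ℕ) : ℝ)) ^ 2 *
          (K (n + 1) * (2 * s) * (2 * s)) + 1 * (s * ‖ψ‖)) +
          (Fintype.card (J (n + 1)) : ℝ) * (K (n + 1) * s * m (n + 1)) =
          ‖ψ‖ + K (n + 1) * s * D n := by
        simp only [D, m]
        push_cast
        field_simp
        ring
      rw [e2]
      linarith

end Pool.Agent.Work.MP_f25c59_an
end

-- merged part: Pool.Agent.Work.MP_f25c59_an.Davie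
section
/-!
The combinatorial part of Davie's version of Enflo's example, with real scalars.
-/

set_option autoImplicit false
set_option linter.unusedSectionVars false

namespace Pool.Agent.Work.MP_f25c59_an

open Finset

/-- Hoeffding's lemma for a centred bounded function on a finite set. -/
lemma sum_exp_le {Ω : Type} [Fintype Ω] (x : Ω → ℝ) (c t : ℝ) (hc : 0 < c) (hx : ∀ w, |x w| ≤ c)
    (h0 : ∑ w, x w = 0) :
    ∑ w, Real.exp (t * x w) ≤ Fintype.card Ω * Real.exp (t ^ 2 * c ^ 2 / 2) := by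
  have h1 : ∀ w, Real.exp (t * x w) ≤ Real.cosh (t * c) + x w * (Real.sinh (t * c) / c) := by
    intro w
    have ha := abs_le.1 (hx w)
    have h2 := convexOn_exp.2 (Set.mem_univ (t * c)) (Set.mem_univ (-(t * c)))
      (show 0 ≤ (c + x w) / (2 * c) by apply div_nonneg <;> linarith)
      (show 0 ≤ (c - x w) / (2 * c) by apply div_nonneg <;> linarith)
      (by field_simp; ring)
    simp only [smul_eq_mul] at h2
    have e1 : (c + x w) / (2 * c) * (t * c) + (c - x w) / (2 * c) * -(t * c) = t * x w := by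
      field_simp; ring
    rw [e1] at h2
    refine le_trans h2 (le_of_eq ?_)
    rw [Real.cosh_eq, Real.sinh_eq]
    field_simp; ring
  refine le_trans (Finset.sum_le_sum fun w _ => h1 w) ?_
  rw [Finset.sum_add_distrib, ← Finset.sum_mul, h0, zero_mul, add_zero, Finset.sum_const,
    card_univ, nsmul_eq_mul]
  refine mul_le_mul_of_nonneg_left ?_ (Nat.cast_nonneg _)
  have := Real.cosh_le_exp_half_sq (t * c)
  rwa [mul_pow] at this

/-- Random selection. -/
lemma select {I Ω L : Type} [Fintype I] [DecidableEq I] [Fintype Ω] [Nonempty Ω] [Fintype L]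
    (x : L → I → Ω → ℝ) (c t lam : ℝ) (hc : 0 < c) (ht : 0 < t) (hx : ∀ l i w, |x l i w| ≤ c)
    (h0 : ∀ l i, ∑ w, x l i w = 0)
    (hs : 2 * Fintype.card L * Real.exp (Fintype.card I * (t ^ 2 * c ^ 2 / 2)) ≤
      Real.exp (t * lam)) :
    ∃ ω : I → Ω, ∀ l, |∑ i, x l i (ω i)| ≤ lam := by
  have key : ∀ (s : ℝ) (l : L), s ^ 2 = t ^ 2 → ∑ ω : I → Ω, Real.exp (s * ∑ i, x l i (ω i)) ≤
      Fintype.card (I → Ω) * Real.exp (Fintype.card I * (t ^ 2 * c ^ 2 / 2)) := by
    intro s l hst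
    have e1 : ∑ ω : I → Ω, Real.exp (s * ∑ i, x l i (ω i)) =
        ∏ i, ∑ w, Real.exp (s * x l i w) := by
      rw [Finset.prod_univ_sum, Fintype.piFinset_univ]
      refine Finset.sum_congr rfl fun ω _ => ?_
      rw [Finset.mul_sum, Real.exp_sum]
    rw [e1]
    refine le_trans (Finset.prod_le_prod (fun i _ => by positivity)
      (fun i _ => sum_exp_le (x l i) c s hc (hx l i) (h0 l i))) (le_of_eq ?_)
    rw [Finset.prod_const, card_univ, mul_pow, ← Real.exp_nat_mul, hst, Fintype.card_fun]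
    push_cast; ring
  have h1 : ∑ ω : I → Ω, ∑ l, (Real.exp (t * ∑ i, x l i (ω i)) +
      Real.exp (-t * ∑ i, x l i (ω i))) ≤ ∑ _ω : I → Ω, Real.exp (t * lam) := by
    rw [Finset.sum_comm]
    simp only [Finset.sum_add_distrib]
    refine le_trans (add_le_add (Finset.sum_le_sum fun l _ => key t l rfl)
      (Finset.sum_le_sum fun l _ => key (-t) l (by ring))) ?_
    simp only [Finset.sum_const, card_univ, nsmul_eq_mul]
    have := mul_le_mul_of_nonneg_left hs (Nat.cast_nonneg (α := ℝ) (Fintype.card (I → Ω)))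
    linarith
  obtain ⟨ω, -, hω⟩ := Finset.exists_le_of_sum_le Finset.univ_nonempty h1
  refine ⟨ω, fun l => ?_⟩
  have h2 := le_trans (Finset.single_le_sum (f := fun l => Real.exp (t * ∑ i, x l i (ω i)) +
      Real.exp (-t * ∑ i, x l i (ω i))) (fun l _ => by positivity) (mem_univ l)) hω
  have h3 := Real.exp_pos (t * ∑ i, x l i (ω i))
  have h4 := Real.exp_pos (-t * ∑ i, x l i (ω i))
  have h5 : t * ∑ i, x l i (ω i) ≤ t * lam := Real.exp_le_exp.1 (by linarith)
  have h6 : -t * ∑ i, x l i (ω i) ≤ t * lam := Real.exp_le_exp.1 (by linarith)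
  rw [abs_le]
  constructor <;> nlinarith

/-- Random selection with the numerical values used below. -/
lemma select' {I Ω L : Type} [Fintype I] [DecidableEq I] [Fintype Ω] [Nonempty Ω] [Fintype L]
    (n : ℕ) (x : L → I → Ω → ℝ) (hx : ∀ l i w, |x l i w| ≤ 4) (h0 : ∀ l i, ∑ w, x l i w = 0)
    (hI : Fintype.card I ≤ 2 ^ (n + 1)) (hL : Fintype.card L ≤ 2 ^ (2 * n + 5)) :
    ∃ ω : I → Ω, ∀ l, |∑ i, x l i (ω i)| ≤ 32 * (3 / 2) ^ n := by
  refine select x 4 ((3 / 4) ^ n) _ (by norm_num) (by positivity) hx h0 ?_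
  have hI' : (Fintype.card I : ℝ) ≤ 2 ^ (n + 1) := by exact_mod_cast hI
  have hL' : (Fintype.card L : ℝ) ≤ 2 ^ (2 * n + 5) := by exact_mod_cast hL
  have e1 : (3 / 4 : ℝ) ^ n * (32 * (3 / 2) ^ n) = 32 * (9 / 8) ^ n := by
    rw [mul_left_comm, ← mul_pow]; norm_num
  have e2 : (2 : ℝ) ^ (n + 1) * (((3 / 4) ^ n) ^ 2 * 4 ^ 2 / 2) = 16 * (9 / 8) ^ n := by
    have : (9 / 8 : ℝ) ^ n = 2 ^ n * ((3 / 4) ^ n) ^ 2 := by
      rw [← pow_mul, mul_comm n 2, pow_mul, ← mul_pow]; norm_num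
    rw [this]; ring
  have h1 : (Fintype.card I : ℝ) * (((3 / 4) ^ n) ^ 2 * 4 ^ 2 / 2) ≤ 16 * (9 / 8) ^ n := by
    rw [← e2]; exact mul_le_mul_of_nonneg_right hI' (by positivity)
  have h2 : (2 : ℝ) ^ (2 * n + 6) ≤ Real.exp (16 * (9 / 8) ^ n) := by
    have h3 : (1 : ℝ) + n * (1 / 8) ≤ (9 / 8) ^ n := by
      have := one_add_mul_le_pow (show (-2 : ℝ) ≤ 1 / 8 by norm_num) n
      norm_num at this ⊢
      exact this
    have h4 : (2 : ℝ) ≤ Real.exp 1 := by linarith [Real.add_one_le_exp 1]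
    calc (2 : ℝ) ^ (2 * n + 6) ≤ Real.exp 1 ^ (2 * n + 6) := pow_le_pow_left₀ (by norm_num) h4 _
      _ = Real.exp ((2 * n + 6 : ℕ) * 1) := (Real.exp_nat_mul _ _).symm
      _ ≤ Real.exp (16 * (9 / 8) ^ n) := Real.exp_le_exp.2 (by push_cast; linarith)
  rw [e1]
  calc 2 * (Fintype.card L : ℝ) * Real.exp (Fintype.card I * (((3 / 4) ^ n) ^ 2 * 4 ^ 2 / 2))
      ≤ 2 * 2 ^ (2 * n + 5) * Real.exp (16 * (9 / 8) ^ n) := by
        gcongr
    _ = 2 ^ (2 * n + 6) * Real.exp (16 * (9 / 8) ^ n) := by ring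
    _ ≤ Real.exp (16 * (9 / 8) ^ n) * Real.exp (16 * (9 / 8) ^ n) := by gcongr
    _ = Real.exp (32 * (9 / 8) ^ n) := by rw [← Real.exp_add]; ring_nf

/-- Walsh functions. -/
def walsh {m : ℕ} (w g : Fin m → Bool) : ℝ := ∏ i, if w i && g i then -1 else 1

lemma walsh_sign {m : ℕ} (w g : Fin m → Bool) : walsh w g = 1 ∨ walsh w g = -1 := by
  unfold walsh
  refine Finset.prod_induction _ (fun x : ℝ => x = 1 ∨ x = -1) ?_ (Or.inl rfl) ?_
  · rintro a b (rfl | rfl) (rfl | rfl) <;> norm_num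
  · intro i _
    split_ifs <;> simp

lemma walsh_orth {m : ℕ} (w w' : Fin m → Bool) :
    ∑ g, walsh w g * walsh w' g = if w = w' then 2 ^ m else 0 := by
  have e1 : ∑ g, walsh w g * walsh w' g =
      ∏ i, ∑ b : Bool, ((if w i && b then -1 else 1) * (if w' i && b then -1 else 1) : ℝ) := by
    rw [Finset.prod_univ_sum, Fintype.piFinset_univ]
    refine Finset.sum_congr rfl fun g _ => ?_
    unfold walsh
    rw [← Finset.prod_mul_distrib]
  rw [e1]
  split_ifs with h
  · subst h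
    have : ∀ i, ∑ b : Bool, ((if w i && b then -1 else 1) * (if w i && b then -1 else 1) : ℝ)
        = 2 := by
      intro i
      cases w i <;> simp <;> norm_num
    rw [Finset.prod_congr rfl (fun i _ => this i)]
    simp
  · obtain ⟨i, hi⟩ := Function.ne_iff.1 h
    refine Finset.prod_eq_zero (mem_univ i) ?_
    revert hi
    cases w i <;> cases w' i <;> simp

/-- Index set of level `n`. -/
abbrev JJ (n : ℕ) : Type := Fin (2 ^ n)
/-- Point set of level `n`. -/
abbrev GG (n : ℕ) : Type := Fin (n + 2) → Bool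

/-- The data of Davie's example. -/
structure Davie where
  σ : ∀ n, JJ n → GG n → ℝ
  τ : ∀ n, JJ (n + 1) → GG n → ℝ
  σ_sign : ∀ n j g, σ n j g = 1 ∨ σ n j g = -1
  τ_sign : ∀ n j g, τ n j g = 1 ∨ τ n j g = -1
  σσ : ∀ n j k, ∑ g, σ n j g * σ n k g = if j = k then 2 ^ (n + 2) else 0
  ττ : ∀ n j k, ∑ g, τ n j g * τ n k g = if j = k then 2 ^ (n + 2) else 0
  στ : ∀ n j k, ∑ g, σ n j g * τ n k g = 0
  same : ∀ n g h, |∑ j, τ n j g * τ n j h - 2 * ∑ j, σ n j g * σ n j h| ≤ 32 * (3 / 2) ^ n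
  cross : ∀ n g h, |∑ j, τ n j g * σ (n + 1) j h| ≤ 32 * (3 / 2) ^ n

lemma sign_mul {a b : ℝ} (ha : a = 1 ∨ a = -1) (hb : b = 1 ∨ b = -1) :
    a * b = 1 ∨ a * b = -1 := by
  rcases ha with rfl | rfl <;> rcases hb with rfl | rfl <;> norm_num

lemma sign_abs {a : ℝ} (ha : a = 1 ∨ a = -1) : |a| = 1 := by
  rcases ha with rfl | rfl <;> norm_num

/-- One level, before the choice of signs. -/
lemma level_exists (n : ℕ) : ∃ (σ : JJ n → GG n → ℝ) (τ : JJ (n + 1) → GG n → ℝ),
    (∀ j g, σ j g = 1 ∨ σ j g = -1) ∧ (∀ j g, τ j g = 1 ∨ τ j g = -1) ∧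
    (∀ j k, ∑ g, σ j g * σ k g = if j = k then 2 ^ (n + 2) else 0) ∧
    (∀ j k, ∑ g, τ j g * τ k g = if j = k then 2 ^ (n + 2) else 0) ∧
    (∀ j k, ∑ g, σ j g * τ k g = 0) ∧
    ∀ g h, |∑ j, τ j g * τ j h - 2 * ∑ j, σ j g * σ j h| ≤ 32 * (3 / 2) ^ n := by
  obtain ⟨r⟩ : Nonempty (JJ n × Fin 3 ↪ GG n) := by
    refine Function.Embedding.nonempty_of_card_le ?_
    simp only [Fintype.card_prod, Fintype.card_fin, Fintype.card_fun, Fintype.card_bool]
    rw [pow_add]; omega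
  let E : JJ (n + 1) ≃ JJ n × Fin 2 := Fintype.equivOfCardEq (by
    simp only [Fintype.card_prod, Fintype.card_fin]; rw [pow_succ])
  let H : JJ n → Fin 3 → GG n → ℝ := fun j a g => walsh (r (j, a)) g
  have Hs : ∀ j a g, H j a g = 1 ∨ H j a g = -1 := fun j a g => walsh_sign _ _
  have Ho : ∀ j a k b, ∑ g, H j a g * H k b g = if (j, a) = (k, b) then 2 ^ (n + 2) else 0 := by
    intro j a k b
    simp only [H, walsh_orth, EmbeddingLike.apply_eq_iff_eq]
  let sh : Fin 3 → Fin 2 → Fin 3 := fun a b => a + b.succ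
  obtain ⟨ω, hω⟩ := select' (I := JJ n) (Ω := Fin 3) (L := GG n × GG n) n
    (fun l j a => H j (sh a 0) l.1 * H j (sh a 0) l.2 + H j (sh a 1) l.1 * H j (sh a 1) l.2 -
      2 * (H j a l.1 * H j a l.2))
    (by
      intro l j a
      rcases sign_mul (Hs j (sh a 0) l.1) (Hs j (sh a 0) l.2) with h1 | h1 <;>
      rcases sign_mul (Hs j (sh a 1) l.1) (Hs j (sh a 1) l.2) with h2 | h2 <;>
      rcases sign_mul (Hs j a l.1) (Hs j a l.2) with h3 | h3 <;>
      rw [h1, h2, h3] <;> norm_num [abs_le])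
    (by
      intro l j
      have s00 : sh 0 0 = 1 := by decide
      have s01 : sh 0 1 = 2 := by decide
      have s10 : sh 1 0 = 2 := by decide
      have s11 : sh 1 1 = 0 := by decide
      have s20 : sh 2 0 = 0 := by decide
      have s21 : sh 2 1 = 1 := by decide
      rw [Fin.sum_univ_three, s00, s01, s10, s11, s20, s21]
      ring)
    (by simp only [Fintype.card_fin]; exact Nat.pow_le_pow_right (by norm_num) (by omega))
    (by
      simp only [Fintype.card_prod, Fintype.card_fin, Fintype.card_fun, Fintype.card_bool]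
      rw [← pow_add]; exact Nat.pow_le_pow_right (by norm_num) (by omega))
  have hsh1 : ∀ a b b', sh a b = sh a b' → b = b' := by decide
  have hsh2 : ∀ a b, a ≠ sh a b := by decide
  refine ⟨fun j g => H j (ω j) g, fun k g => H (E k).1 (sh (ω (E k).1) (E k).2) g,
    fun j g => Hs _ _ _, fun j g => Hs _ _ _, ?_, ?_, ?_, ?_⟩
  · intro j k
    rw [Ho]
    by_cases h : j = k
    · simp [h]
    · simp [h]
  · intro j k
    rw [Ho]
    by_cases h : j = k
    · simp [h]
    · rw [if_neg h, if_neg]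
      intro h'
      obtain ⟨h1, h2⟩ := Prod.mk.inj h'
      rw [h1] at h2
      exact h (E.injective (Prod.ext h1 (hsh1 _ _ _ h2)))
  · intro j k
    rw [Ho, if_neg]
    intro h'
    obtain ⟨h1, h2⟩ := Prod.mk.inj h'
    rw [← h1] at h2
    exact hsh2 _ _ h2
  · intro g h
    have e1 : ∑ k, H (E k).1 (sh (ω (E k).1) (E k).2) g * H (E k).1 (sh (ω (E k).1) (E k).2) h =
        ∑ j, (H j (sh (ω j) 0) g * H j (sh (ω j) 0) h + H j (sh (ω j) 1) g * H j (sh (ω j) 1) h) := by
      rw [Fintype.sum_equiv E _ (fun q => H q.1 (sh (ω q.1) q.2) g * H q.1 (sh (ω q.1) q.2) h)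
        (fun _ => rfl), Fintype.sum_prod_type]
      simp only [Fin.sum_univ_two]
    have := hω (g, h)
    rw [e1, Finset.mul_sum, ← Finset.sum_sub_distrib]
    exact this

theorem davie_exists : Nonempty Davie := by
  choose σ τ h1 h2 h3 h4 h5 h6 using level_exists
  let sg : Bool → ℝ := fun b => if b then 1 else -1
  have hsg : ∀ b, sg b = 1 ∨ sg b = -1 := by intro b; cases b <;> simp [sg]
  have hsg2 : ∀ b, sg b * sg b = 1 := by intro b; cases b <;> simp [sg]
  have hsel : ∀ n, ∃ ε : JJ (n + 1) → Bool, ∀ l : GG n × GG (n + 1),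
      |∑ j, τ n j l.1 * (sg (ε j) * σ (n + 1) j l.2)| ≤ 32 * (3 / 2) ^ n := by
    intro n
    refine select' (I := JJ (n + 1)) (Ω := Bool) (L := GG n × GG (n + 1)) n
      (fun l j b => τ n j l.1 * (sg b * σ (n + 1) j l.2)) ?_ ?_ ?_ ?_
    · intro l j b
      rw [sign_abs (sign_mul (h2 n j _) (sign_mul (hsg b) (h1 (n + 1) j _)))]
      norm_num
    · intro l j
      simp [sg]
    · simp
    · simp only [Fintype.card_prod, Fintype.card_fin, Fintype.card_fun, Fintype.card_bool]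
      rw [← pow_add]; exact Nat.pow_le_pow_right (by norm_num) (by omega)
  choose ε hε using hsel
  let ε' : ∀ n, JJ n → Bool := fun n => match n with
    | 0 => fun _ => true
    | n + 1 => ε n
  refine ⟨⟨fun n j g => sg (ε' n j) * σ n j g, τ, fun n j g => sign_mul (hsg _) (h1 n j g), h2,
    ?_, h4, ?_, ?_, fun n g h => hε n (g, h)⟩⟩
  · intro n j k
    have e : ∀ g, sg (ε' n j) * σ n j g * (sg (ε' n k) * σ n k g) =
        sg (ε' n j) * sg (ε' n k) * (σ n j g * σ n k g) := fun g => by ring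
    simp only [e]
    rw [← Finset.mul_sum, h3]
    split_ifs with h
    · rw [h, hsg2, one_mul]
    · rw [mul_zero]
  · intro n j k
    simp only [mul_assoc]
    rw [← Finset.mul_sum, h5, mul_zero]
  · intro n g h
    have e : ∀ j, sg (ε' n j) * σ n j g * (sg (ε' n j) * σ n j h) = σ n j g * σ n j h := by
      intro j
      linear_combination (σ n j g * σ n j h) * hsg2 (ε' n j)
    simp only [e]
    exact h6 n g h

end Pool.Agent.Work.MP_f25c59_an
end

-- merged part: Pool.Agent.Work.MP_f25c59_an.Space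
section
/-!
The normed space spanned by Davie's vectors.
-/

set_option autoImplicit false
set_option linter.unusedSectionVars false

namespace Pool.Agent.Work.MP_f25c59_an

open Finset

/-- Finitely supported coefficient families. -/
@[nolint unusedArguments]
def VV (_D : Davie) : Type := (Σ n, JJ n) →₀ ℝ

variable (D : Davie)

noncomputable instance : AddCommGroup (VV D) := inferInstanceAs (AddCommGroup ((Σ n, JJ n) →₀ ℝ))
noncomputable instance : Module ℝ (VV D) := inferInstanceAs (Module ℝ ((Σ n, JJ n) →₀ ℝ))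

/-- Coordinate functionals. -/
noncomputable def co (n : ℕ) (j : JJ n) : VV D →ₗ[ℝ] ℝ := Finsupp.lapply (⟨n, j⟩ : Σ n, JJ n)

/-- Basis vectors. -/
noncomputable def ee (n : ℕ) (j : JJ n) : VV D := Finsupp.single (⟨n, j⟩ : Σ n, JJ n) (1 : ℝ)

/-- Evaluation functionals. -/
noncomputable def ev (n : ℕ) (g : GG n) : VV D →ₗ[ℝ] ℝ :=
  ∑ j, D.σ n j g • co D n j + ∑ j, D.τ n j g • co D (n + 1) j

lemma ev_apply (n : ℕ) (g : GG n) (a : VV D) :
    ev D n g a = ∑ j, D.σ n j g * co D n j a + ∑ j, D.τ n j g * co D (n + 1) j a := by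
  simp [ev, LinearMap.sum_apply]

lemma co_ee_same (n : ℕ) (j k : JJ n) : co D n j (ee D n k) = if j = k then 1 else 0 := by
  show (Finsupp.single (⟨n, k⟩ : Σ n, JJ n) (1 : ℝ)) ⟨n, j⟩ = _
  classical
  rw [Finsupp.single_apply]
  by_cases h : j = k
  · simp [h]
  · rw [if_neg h, if_neg]
    intro h'
    exact h (eq_of_heq (Sigma.mk.inj h').2).symm

lemma co_ee_ne {n m : ℕ} (h : n ≠ m) (j : JJ n) (k : JJ m) : co D n j (ee D m k) = 0 := by
  show (Finsupp.single (⟨m, k⟩ : Σ n, JJ n) (1 : ℝ)) ⟨n, j⟩ = _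
  refine Finsupp.single_eq_of_ne ?_
  intro h'
  exact h (Sigma.mk.inj h').1

lemma co_eventually (a : VV D) : ∃ k : ℕ, ∀ n, k ≤ n → ∀ j, co D n j a = 0 := by
  obtain ⟨k, hk⟩ := ((show (Σ n, JJ n) →₀ ℝ from a).support.image Sigma.fst).bddAbove
  refine ⟨k + 1, fun n hn j => ?_⟩
  by_contra h
  have h1 : (⟨n, j⟩ : Σ n, JJ n) ∈ (show (Σ n, JJ n) →₀ ℝ from a).support :=
    Finsupp.mem_support_iff.2 h
  have h2 := hk (Finset.mem_coe.2 (Finset.mem_image_of_mem Sigma.fst h1))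
  simp only at h2
  omega

lemma co_eq_σ (n : ℕ) (j : JJ n) (a : VV D) :
    ∑ g, D.σ n j g * ev D n g a = 2 ^ (n + 2) * co D n j a := by
  simp only [ev_apply, mul_add, Finset.mul_sum, Finset.sum_add_distrib, ← mul_assoc]
  rw [Finset.sum_comm, Finset.sum_comm (s := univ) (t := (univ : Finset (JJ (n + 1))))]
  simp only [← Finset.sum_mul, D.σσ, D.στ]
  simp

lemma co_eq_τ (n : ℕ) (j : JJ (n + 1)) (a : VV D) :
    ∑ g, D.τ n j g * ev D n g a = 2 ^ (n + 2) * co D (n + 1) j a := by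
  simp only [ev_apply, mul_add, Finset.mul_sum, Finset.sum_add_distrib, ← mul_assoc]
  rw [Finset.sum_comm, Finset.sum_comm (s := univ) (t := (univ : Finset (JJ (n + 1))))]
  have h : ∀ k, ∑ g, D.τ n j g * D.σ n k g = 0 := fun k => by
    simp only [mul_comm (D.τ n j _)]; exact D.στ n k j
  simp only [← Finset.sum_mul, D.ττ, h]
  simp

lemma ev_bdd (a : VV D) : BddAbove (Set.range fun h : Σ n, GG n => |ev D h.1 h.2 a|) := by
  obtain ⟨k, hk⟩ := co_eventually D a
  have hfin : (Set.range fun h : Σ n, GG n => |ev D h.1 h.2 a|) ⊆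
      {0} ∪ ⋃ n ∈ Finset.range k, Set.range fun g : GG n => |ev D n g a| := by
    rintro _ ⟨⟨n, g⟩, rfl⟩
    by_cases hn : n < k
    · right
      simp only [Set.mem_iUnion]
      exact ⟨n, Finset.mem_range.2 hn, g, rfl⟩
    · left
      simp [ev_apply, hk n (by omega), hk (n + 1) (by omega)]
  refine BddAbove.mono hfin (Set.Finite.bddAbove ?_)
  exact (Set.finite_singleton _).union
    (Set.Finite.biUnion (Finset.finite_toSet _) fun n _ => Set.finite_range _)

instance : Nonempty (Σ n, GG n) := ⟨⟨0, fun _ => true⟩⟩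

/-- The supremum norm. -/
noncomputable def vnorm (a : VV D) : ℝ := ⨆ h : Σ n, GG n, |ev D h.1 h.2 a|

lemma ev_le_vnorm (n : ℕ) (g : GG n) (a : VV D) : |ev D n g a| ≤ vnorm D a :=
  le_ciSup (ev_bdd D a) (⟨n, g⟩ : Σ n, GG n)

lemma vnorm_le (a : VV D) (c : ℝ) (h : ∀ n g, |ev D n g a| ≤ c) : vnorm D a ≤ c :=
  ciSup_le fun h' => h h'.1 h'.2

/-- The supremum norm as a group norm. -/
noncomputable def vGroupNorm : AddGroupNorm (VV D) where
  toFun := vnorm D
  map_zero' := by simp [vnorm]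
  add_le' a b := vnorm_le D _ _ fun n g => by
    rw [map_add]
    exact le_trans (abs_add_le _ _) (add_le_add (ev_le_vnorm D n g a) (ev_le_vnorm D n g b))
  neg' a := by simp [vnorm]
  eq_zero_of_map_eq_zero' a ha := by
    have h1 : ∀ n g, ev D n g a = 0 := fun n g =>
      abs_nonpos_iff.1 (le_trans (ev_le_vnorm D n g a) ha.le)
    refine Finsupp.ext ?_
    rintro ⟨n, j⟩
    have h2 := co_eq_σ D n j a
    simp only [h1, mul_zero, Finset.sum_const_zero] at h2
    exact (mul_eq_zero.1 h2.symm).resolve_left (by positivity)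

noncomputable instance : NormedAddCommGroup (VV D) := (vGroupNorm D).toNormedAddCommGroup

lemma VV.norm_def (a : VV D) : ‖a‖ = vnorm D a := rfl

noncomputable instance : NormedSpace ℝ (VV D) where
  norm_smul_le t a := vnorm_le D _ _ fun n g => by
    rw [map_smul, smul_eq_mul, abs_mul]
    exact mul_le_mul_of_nonneg_left (ev_le_vnorm D n g a) (abs_nonneg t)

lemma ev_le (n : ℕ) (g : GG n) (a : VV D) : |ev D n g a| ≤ ‖a‖ := ev_le_vnorm D n g a

lemma norm_ee_le (n : ℕ) (j : JJ n) : ‖ee D n j‖ ≤ 1 := by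
  refine vnorm_le D _ _ fun m g => ?_
  rw [ev_apply]
  by_cases h1 : m = n
  · subst h1
    simp [co_ee_same, co_ee_ne D (show m + 1 ≠ m by omega), sign_abs (D.σ_sign m j g)]
  · by_cases h2 : m + 1 = n
    · subst h2
      simp [co_ee_same, co_ee_ne D h1, sign_abs (D.τ_sign m j g)]
    · simp [co_ee_ne D h1, co_ee_ne D h2]

/-- The small vectors of Davie's argument. -/
lemma norm_psi_le (n : ℕ) (g : GG n) :
    ‖∑ j, D.τ n j g • ee D (n + 1) j + ∑ j, (2 * -D.σ n j g) • ee D n j‖ ≤ 64 * (3 / 2) ^ n := by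
  set ψ := ∑ j, D.τ n j g • ee D (n + 1) j + ∑ j, (2 * -D.σ n j g) • ee D n j with hψ
  have c1 : ∀ j, co D (n + 1) j ψ = D.τ n j g := by
    intro j
    simp [hψ, map_sum, co_ee_same, co_ee_ne D (show n + 1 ≠ n by omega)]
  have c2 : ∀ j, co D n j ψ = -(2 * D.σ n j g) := by
    intro j
    simp [hψ, map_sum, co_ee_same, co_ee_ne D (show n ≠ n + 1 by omega)]
  have c3 : ∀ m, m ≠ n → m ≠ n + 1 → ∀ j, co D m j ψ = 0 := by
    intro m h1 h2 j
    simp [hψ, map_sum, co_ee_ne D h1, co_ee_ne D h2]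
  have hpos : (0 : ℝ) < (3 / 2) ^ n := by positivity
  refine vnorm_le D _ _ fun m h => ?_
  rw [ev_apply]
  by_cases h1 : m = n
  · subst h1
    simp only [c1, c2]
    have := D.same m g h
    have e : ∑ j, D.σ m j h * -(2 * D.σ m j g) + ∑ j, D.τ m j h * D.τ m j g =
        ∑ j, D.τ m j g * D.τ m j h - 2 * ∑ j, D.σ m j g * D.σ m j h := by
      rw [Finset.mul_sum, sub_eq_add_neg, ← Finset.sum_neg_distrib, add_comm]
      congr 1 <;> exact Finset.sum_congr rfl fun j _ => by ring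
    rw [e]
    linarith
  · by_cases h2 : m = n + 1
    · subst h2
      simp only [c1, c3 (n + 1 + 1) (by omega) (by omega), mul_zero, Finset.sum_const_zero,
        add_zero]
      have := D.cross n g h
      simp only [mul_comm (D.τ n _ g)] at this
      linarith
    · by_cases h3 : m + 1 = n
      · subst h3
        simp only [c2, c3 m h1 h2, mul_zero, Finset.sum_const_zero, zero_add]
        have := D.cross m h g
        have e : ∑ j, D.τ m j h * -(2 * D.σ (m + 1) j g) =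
            -2 * ∑ j, D.τ m j h * D.σ (m + 1) j g := by
          rw [Finset.mul_sum]
          exact Finset.sum_congr rfl fun j _ => by ring
        rw [e, abs_mul, pow_succ (3 / 2 : ℝ)]
        have h4 : (0 : ℝ) < (3 / 2) ^ m := by positivity
        norm_num
        linarith
      · simp only [c3 m h1 h2, c3 (m + 1) h3 (by omega), mul_zero, Finset.sum_const_zero, add_zero,
          abs_zero]
        positivity

end Pool.Agent.Work.MP_f25c59_an
end

-- merged part: Pool.Agent.Work.MP_f25c59_an.Main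
section
/-!
The free `p`-space over Davie's space fails the approximation property.
-/

set_option autoImplicit false
set_option linter.unusedSectionVars false

namespace Pool.Agent.Work.MP_f25c59_an

open Finset Filter Topology

/-- A combination of differences lies in a multiple of the absolutely convex hull of finitely
many normalised molecules. -/
lemma Mol.finite {V A Y : Type} [NormedAddCommGroup V] [CommRing A] [Algebra ℝ A]
    [AddCommGroup Y] [Module ℝ Y] {X : V → A} {p : ℝ} {N : Y → ℝ} (hN : IsPBanach p N)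
    (ι : A →ₗ[ℝ] Y) (hι : ∀ x y, N (ι (X x) - ι (X y)) = ‖x - y‖) {μ : A} {a : ℝ}
    (h : Mol X μ a) :
    ∃ F : Set Y, F.Finite ∧ (∀ m ∈ F, N m ≤ 1) ∧ ∀ (ℓ : Y →ₗ[ℝ] ℝ) (B : ℝ), 0 ≤ B →
      (∀ m ∈ F, |ℓ m| ≤ B) → |ℓ (ι μ)| ≤ a * B := by
  induction h with
  | one c x y =>
    by_cases hxy : x = y
    · subst hxy
      exact ⟨∅, Set.finite_empty, by simp, fun ℓ B hB _ => by simp⟩
    · have hpos : 0 < ‖x - y‖ := norm_pos_iff.2 (sub_ne_zero.2 hxy)
      refine ⟨{‖x - y‖⁻¹ • (ι (X x) - ι (X y))}, Set.finite_singleton _, ?_, ?_⟩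
      · rintro m rfl
        rw [hN.smul, hι, abs_of_pos (inv_pos.2 hpos), inv_mul_cancel₀ hpos.ne']
      · intro ℓ B hB hF
        have h1 := hF _ rfl
        rw [map_smul, smul_eq_mul, abs_mul, abs_of_pos (inv_pos.2 hpos),
          inv_mul_le_iff₀ hpos] at h1
        rw [map_smul, map_smul, map_sub ι, smul_eq_mul, abs_mul, mul_assoc]
        exact mul_le_mul_of_nonneg_left h1 (abs_nonneg c)
  | zero => exact ⟨∅, Set.finite_empty, by simp, fun ℓ B hB _ => by simp⟩
  | add _ _ h1 h2 =>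
    obtain ⟨F1, f1, g1, k1⟩ := h1
    obtain ⟨F2, f2, g2, k2⟩ := h2
    refine ⟨F1 ∪ F2, f1.union f2, ?_, fun ℓ B hB hF => ?_⟩
    · rintro m (hm | hm)
      exacts [g1 m hm, g2 m hm]
    · rw [map_add, map_add, add_mul]
      exact le_trans (abs_add_le _ _) (add_le_add (k1 ℓ B hB fun m hm => hF m (Or.inl hm))
        (k2 ℓ B hB fun m hm => hF m (Or.inr hm)))
  | mono _ hab h1 =>
    obtain ⟨F1, f1, g1, k1⟩ := h1
    exact ⟨F1, f1, g1, fun ℓ B hB hF =>
      le_trans (k1 ℓ B hB hF) (mul_le_mul_of_nonneg_right hab hB)⟩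

/-- Pointwise decay of averaged coordinates is uniform on bounded subsets of finite
dimensional subspaces. -/
lemma findim_decay {Y : Type} [AddCommGroup Y] [Module ℝ Y] (J : ℕ → Type) [∀ n, Fintype (J n)]
    (w : ℕ → ℝ) (hw : ∀ n, 0 ≤ w n) (ℓ : ∀ n, J n → Y →ₗ[ℝ] ℝ)
    (hb : ∀ y, ∃ B, ∀ n j, |ℓ n j y| ≤ B)
    (hd : ∀ (y : Y) (ε : ℝ), 0 < ε → ∃ k, ∀ n, k ≤ n → w n * ∑ j, |ℓ n j y| ≤ ε) (d : ℕ) :
    ∀ (E : Submodule ℝ Y), FiniteDimensional ℝ E → Module.finrank ℝ E ≤ d → ∀ (B ε : ℝ), 0 < ε →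
      ∃ k, ∀ n, k ≤ n → ∀ z : J n → Y, (∀ j, z j ∈ E) → (∀ j m i, |ℓ m i (z j)| ≤ B) →
        w n * ∑ j, |ℓ n j (z j)| ≤ ε := by
  have triv : ∀ (E : Submodule ℝ Y), (∀ m i, ∀ y ∈ E, ℓ m i y = 0) → ∀ (B ε : ℝ), 0 < ε →
      ∃ k, ∀ n, k ≤ n → ∀ z : J n → Y, (∀ j, z j ∈ E) → (∀ j m i, |ℓ m i (z j)| ≤ B) →
        w n * ∑ j, |ℓ n j (z j)| ≤ ε := by
    intro E hE B ε hε
    refine ⟨0, fun n _ z hz _ => ?_⟩
    simp [fun j => hE n j (z j) (hz j), hε.le]
  induction d with
  | zero =>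
    intro E hE hd0
    have : E = ⊥ := Submodule.finrank_eq_zero.1 (Nat.le_zero.1 hd0)
    refine triv E fun m i y hy => ?_
    rw [this, Submodule.mem_bot] at hy
    rw [hy, map_zero]
  | succ d ih =>
    intro E hE hd1 B ε hε
    by_cases hz : ∀ m i, ∀ y ∈ E, ℓ m i y = 0
    · exact triv E hz B ε hε
    push Not at hz
    obtain ⟨m₀, i₀, b₀, hb₀, hne⟩ := hz
    obtain ⟨b, hbE, hb1⟩ : ∃ b ∈ E, ℓ m₀ i₀ b = 1 :=
      ⟨(ℓ m₀ i₀ b₀)⁻¹ • b₀, E.smul_mem _ hb₀, by simp [hne]⟩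
    let E' : Submodule ℝ Y := E ⊓ LinearMap.ker (ℓ m₀ i₀)
    have hlt : E' < E := by
      refine lt_of_le_of_ne inf_le_left fun h => ?_
      have : b ∈ E' := h ▸ hbE
      have h2 : ℓ m₀ i₀ b = 0 := this.2
      rw [hb1] at h2
      exact one_ne_zero h2
    have hE' : FiniteDimensional ℝ E' := Submodule.finiteDimensional_of_le hlt.le
    have hrk : Module.finrank ℝ E' ≤ d := by
      have := Submodule.finrank_lt_finrank_of_lt hlt
      omega
    obtain ⟨Bb, hBb⟩ := hb b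
    obtain ⟨k1, hk1⟩ := ih E' hE' hrk (B + B * Bb) (ε / 2) (by positivity)
    obtain ⟨k2, hk2⟩ := hd b (ε / 2 / (|B| + 1)) (by positivity)
    refine ⟨max k1 k2, fun n hn z hz hzB => ?_⟩
    have h1 := hk1 n (le_trans (le_max_left _ _) hn) (fun j => z j - ℓ m₀ i₀ (z j) • b)
      (fun j => ⟨E.sub_mem (hz j) (E.smul_mem _ hbE), by simp [hb1]⟩)
      (fun j m i => by
        rw [map_sub, map_smul, smul_eq_mul]
        refine le_trans (abs_sub _ _) (add_le_add (hzB j m i) ?_)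
        rw [abs_mul]
        exact mul_le_mul (hzB j m₀ i₀) (hBb m i) (abs_nonneg _)
          (le_trans (abs_nonneg _) (hzB j m i)))
    have h2 := hk2 n (le_trans (le_max_right _ _) hn)
    have h3 : ∑ j, |ℓ n j (z j)| ≤
        ∑ j, |ℓ n j (z j - ℓ m₀ i₀ (z j) • b)| + |B| * ∑ j, |ℓ n j b| := by
      rw [Finset.mul_sum, ← Finset.sum_add_distrib]
      refine Finset.sum_le_sum fun j _ => ?_
      have e : ℓ n j (z j) = ℓ n j (z j - ℓ m₀ i₀ (z j) • b) + ℓ m₀ i₀ (z j) * ℓ n j b := by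
        rw [map_sub, map_smul, smul_eq_mul]; ring
      rw [e]
      refine le_trans (abs_add_le _ _) (add_le_add le_rfl ?_)
      rw [abs_mul]
      exact mul_le_mul_of_nonneg_right (le_trans (hzB j m₀ i₀) (le_abs_self B)) (abs_nonneg _)
    have h4 : |B| * (ε / 2 / (|B| + 1)) ≤ ε / 2 := by
      rw [mul_div_assoc', div_le_iff₀ (by positivity)]
      nlinarith [abs_nonneg B]
    have h5 := mul_le_mul_of_nonneg_left h3 (hw n)
    have h6 := mul_le_mul_of_nonneg_left h2 (abs_nonneg B)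
    nlinarith

/-- A null family together with `0` is compact. -/
lemma compact_of_null {Y : Type} [AddCommGroup Y] [Module ℝ Y] {p : ℝ} {N : Y → ℝ}
    (hN : IsPBanach p N) (K : Set Y) (h0 : (0 : Y) ∈ K)
    (hK : ∀ ε : ℝ, 0 < ε → {y ∈ K | ε ≤ N y}.Finite) : IsCompactFor N K := by
  intro u hu
  by_cases h : ∃ x, ∃ᶠ n in atTop, u n = x
  · obtain ⟨x, hx⟩ := h
    obtain ⟨φ, hφ, hφx⟩ := extraction_of_frequently_atTop hx
    refine ⟨x, hφx 0 ▸ hu _, φ, hφ, ?_⟩
    simp [hφx, hN.zero]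
  · push Not at h
    refine ⟨0, h0, id, strictMono_id, ?_⟩
    rw [Metric.tendsto_atTop']
    intro ε hε
    have h1 : ∀ᶠ n in atTop, ∀ x ∈ {y ∈ K | ε ≤ N y}, u n ≠ x :=
      (hK ε hε).eventually_all.2 fun x _ => h x
    obtain ⟨k, hk⟩ := eventually_atTop.1 h1
    refine ⟨k, fun n hn => ?_⟩
    rw [Real.dist_eq, sub_zero, sub_zero, abs_of_nonneg (hN.nonneg _)]
    by_contra hc
    push Not at hc
    exact hk n hn.le (u n) ⟨hu n, hc⟩ rfl

lemma group_algebra {V Y : Type} [NormedAddCommGroup V] [AddCommGroup Y] [Module ℝ Y]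
    (δ : V → Y) : ∃ (X : V → AddMonoidAlgebra ℝ V) (ι : AddMonoidAlgebra ℝ V →ₗ[ℝ] Y),
      IsChar X ∧ ∀ v, ι (X v) = δ v := by
  refine ⟨fun v => AddMonoidAlgebra.single v 1, (Finsupp.linearCombination ℝ δ).comp
    (AddMonoidAlgebra.coeffLinearEquiv ℝ).toLinearMap, ⟨rfl, fun u v => ?_⟩, fun v => ?_⟩
  · rw [AddMonoidAlgebra.single_mul_single, one_mul]
  · simp

theorem not_hasAP (D : Davie) {p : ℝ} (hp : 0 < p) (hp1 : p ≤ 1) {Y : Type} [AddCommGroup Y]
    [Module ℝ Y] (N : Y → ℝ) (δ : VV D → Y) (hF : IsFree p (0 : VV D) N δ) : ¬ HasAP N := by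
  classical
  intro hAP
  obtain ⟨hN, hδ0, hiso, hdense, huniv⟩ := hF
  have hR := abs_isPBanach hp hp1
  -- extensions of the evaluation functionals
  have hext : ∀ n (g : GG n), ∃ T : Y →ₗ[ℝ] ℝ, (∀ a, T (δ a) = ev D n g a) ∧
      ∀ y, |T y| ≤ N y := by
    intro n g
    have hl : ∀ a b : VV D, |ev D n g a - ev D n g b| ≤ 1 * dist a b := by
      intro a b
      rw [← map_sub, one_mul, dist_eq_norm]
      exact ev_le D n g _
    obtain ⟨T, h1, h2, -⟩ := huniv ℝ (fun x => |x|) hR (ev D n g) (map_zero _) ⟨1, hl⟩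
    exact ⟨T, h1, fun y => by simpa using (h2 1 zero_le_one).2 hl y⟩
  choose E hE1 hE2 using hext
  have hcard : ∀ n, (Fintype.card (GG n) : ℝ) = 2 ^ (n + 2) := by
    intro n; simp
  have havg : ∀ n (s : GG n → ℝ), (∀ g, s g = 1 ∨ s g = -1) → ∀ y,
      |(((2 : ℝ) ^ (n + 2))⁻¹ • ∑ g, s g • E n g) y| ≤ 1 * N y := by
    intro n s hs y
    have hpos : (0 : ℝ) < 2 ^ (n + 2) := by positivity
    simp only [LinearMap.smul_apply, LinearMap.sum_apply, smul_eq_mul]
    rw [abs_mul, abs_of_pos (inv_pos.2 hpos), inv_mul_le_iff₀ hpos, one_mul]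
    refine le_trans (Finset.abs_sum_le_sum_abs _ _) ?_
    have : ∀ g ∈ (univ : Finset (GG n)), |s g * E n g y| ≤ N y := fun g _ => by
      rw [abs_mul, sign_abs (hs g), one_mul]; exact hE2 n g y
    have h2 := Finset.sum_le_card_nsmul _ _ _ this
    rwa [card_univ, nsmul_eq_mul, hcard] at h2
  let c : ∀ n, JJ n → Y →ₗ[ℝ] ℝ := fun n j => ((2 : ℝ) ^ (n + 2))⁻¹ • ∑ g, D.σ n j g • E n g
  have hc1 : ∀ n j y, |c n j y| ≤ N y := fun n j y =>
    (havg n (D.σ n j) (D.σ_sign n j) y).trans (one_mul _).le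
  have hc2 : ∀ n j a, c n j (δ a) = co D n j a := by
    intro n j a
    simp only [c, LinearMap.smul_apply, LinearMap.sum_apply, smul_eq_mul, hE1]
    rw [co_eq_σ]; field_simp
  have hc3 : ∀ n (j : JJ (n + 1)),
      c (n + 1) j = ((2 : ℝ) ^ (n + 2))⁻¹ • ∑ g, D.τ n j g • E n g := by
    intro n j
    refine eq_zero_of_dense hN.nonneg hR hp hdense _ _ 1 1 (fun y => by simpa using hc1 _ j y)
      (havg n (D.τ n j) (D.τ_sign n j)) ?_
    rintro _ ⟨a, rfl⟩
    rw [hc2]
    simp only [LinearMap.smul_apply, LinearMap.sum_apply, smul_eq_mul, hE1]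
    rw [co_eq_τ]; field_simp
  have hw : ∀ n : ℕ, (0 : ℝ) < ((2 : ℝ) ^ n)⁻¹ := fun n => by positivity
  have havJ : ∀ n (x : JJ n → ℝ) (B : ℝ), (∀ j, x j ≤ B) → ((2 : ℝ) ^ n)⁻¹ * ∑ j, x j ≤ B := by
    intro n x B hx
    have h2 := Finset.sum_le_card_nsmul univ x B fun j _ => hx j
    rw [card_univ, nsmul_eq_mul, Fintype.card_fin] at h2
    rw [inv_mul_le_iff₀ (by positivity)]
    exact_mod_cast h2
  have hdec : ∀ (y : Y) (ε : ℝ), 0 < ε → ∃ k, ∀ n, k ≤ n →
      ((2 : ℝ) ^ n)⁻¹ * ∑ j, |c n j y| ≤ ε := by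
    intro y ε hε
    obtain ⟨z, hz, hyz⟩ := hdense y ε hε
    have : ∃ k, ∀ n, k ≤ n → ∀ j, c n j z = 0 := by
      clear hyz
      induction hz using Submodule.span_induction with
      | mem x hx =>
        obtain ⟨a, rfl⟩ := hx
        obtain ⟨k, hk⟩ := co_eventually D a
        exact ⟨k, fun n hn j => by rw [hc2, hk n hn j]⟩
      | zero => exact ⟨0, fun n _ j => map_zero _⟩
      | add x y _ _ h1 h2 =>
        obtain ⟨k1, h1⟩ := h1
        obtain ⟨k2, h2⟩ := h2
        exact ⟨max k1 k2, fun n hn j => by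
          rw [map_add, h1 n (le_trans (le_max_left _ _) hn), h2 n (le_trans (le_max_right _ _) hn),
            add_zero]⟩
      | smul t x _ h1 =>
        obtain ⟨k1, h1⟩ := h1
        exact ⟨k1, fun n hn j => by rw [map_smul, h1 n hn, smul_zero]⟩
    obtain ⟨k, hk⟩ := this
    refine ⟨k, fun n hn => havJ n _ ε fun j => ?_⟩
    have h1 := hc1 n j (y - z)
    rw [map_sub, hk n hn j, sub_zero] at h1
    linarith
  -- the group algebra and the lifting
  obtain ⟨X, ι, hX, hιX⟩ := group_algebra δ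
  have hι : ∀ x y, N (ι (X x) - ι (X y)) = ‖x - y‖ := fun x y => by
    rw [hιX, hιX, hiso, dist_eq_norm]
  obtain ⟨u, hu1, hu2, hu3⟩ := lift_exists hX JJ (ee D) (norm_ee_le D)
  have hu4 : ∀ n j, c n j (ι (u n j)) = 1 := by
    intro n j
    have := hu2 n j ((c n j).comp ι) (co D n j) (fun v => by
      rw [LinearMap.comp_apply, hιX, hc2])
    rw [co_ee_same, if_pos rfl] at this
    exact this
  choose Fu hFu1 hFu2 hFu3 using fun n j => (hu1 n j).finite hN ι hι
  have hΦ : ∀ n (g : GG n), Mol X (∑ j, D.τ n j g • u (n + 1) j + ∑ j, (2 * -D.σ n j g) • u n j)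
      (65 * (3 / 2) ^ n) := by
    intro n g
    refine (hu3 n (fun j => -D.σ n j g) (fun j => D.τ n j g)
      (fun j => by rcases D.σ_sign n j g with h | h <;> simp [h]) (fun j => D.τ_sign n j g)).mono ?_
    have h1 := norm_psi_le D n g
    have h2 : (1 : ℝ) ≤ (3 / 2) ^ n := one_le_pow₀ (by norm_num)
    linarith
  choose F hF1 hF2 hF3 using fun n g => (hΦ n g).finite hN ι hι
  -- the compact set
  let K : Set Y := ({0} ∪ ⋃ j, Fu 0 j) ∪ ⋃ n, ⋃ g, (fun m => ((7 / 8 : ℝ) ^ n) • m) '' F n g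
  have hK : IsCompactFor N K := by
    refine compact_of_null hN K (Or.inl (Or.inl rfl)) fun ε hε => ?_
    obtain ⟨k, hk⟩ := exists_pow_lt_of_lt_one hε (show (7 / 8 : ℝ) < 1 by norm_num)
    refine Set.Finite.subset (s := ({0} ∪ ⋃ j, Fu 0 j) ∪
      ⋃ n ∈ Finset.range k, ⋃ g, (fun m => ((7 / 8 : ℝ) ^ n) • m) '' F n g) ?_ ?_
    · exact ((Set.finite_singleton _).union (Set.finite_iUnion (hFu1 0))).union
        (Set.Finite.biUnion (Finset.finite_toSet _) fun n _ =>
          Set.finite_iUnion fun g => (hF1 n g).image _)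
    · rintro y ⟨hy | hy, hε'⟩
      · exact Or.inl hy
      · right
        simp only [Set.mem_iUnion] at hy ⊢
        obtain ⟨n, g, m, hm, rfl⟩ := hy
        refine ⟨n, Finset.mem_range.2 ?_, g, m, hm, rfl⟩
        by_contra hn
        push Not at hn
        have h1 : (7 / 8 : ℝ) ^ n ≤ (7 / 8) ^ k :=
          pow_le_pow_of_le_one (by norm_num) (by norm_num) hn
        have h2 : (0 : ℝ) < (7 / 8) ^ n := by positivity
        simp only at hε'
        rw [hN.smul, abs_of_pos h2] at hε'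
        nlinarith [hF2 n g m hm]
  obtain ⟨T, ⟨C, hC⟩, hfin, hT⟩ := hAP K hK (1 / 500) (by norm_num)
  let S : Y →ₗ[ℝ] Y := T - LinearMap.id
  have hS : ∀ y ∈ K, N (S y) ≤ 1 / 500 := fun y hy => (hT y hy).le
  let β : ℕ → ℝ := fun n => ((2 : ℝ) ^ n)⁻¹ * ∑ j, c n j (S (ι (u n j)))
  have hβ0 : |β 0| ≤ 1 / 500 := by
    simp only [β]
    rw [abs_mul, abs_of_pos (hw 0)]
    refine le_trans (mul_le_mul_of_nonneg_left (Finset.abs_sum_le_sum_abs _ _) (hw 0).le) ?_
    refine havJ 0 _ _ fun j => ?_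
    have := hFu3 0 j ((c 0 j).comp S) (1 / 500) (by norm_num) (fun m hm =>
      le_trans (hc1 0 j _) (hS m (Or.inl (Or.inr (Set.mem_iUnion.2 ⟨j, hm⟩)))))
    simpa using this
  have hstep : ∀ n, |β (n + 1) - β n| ≤ 33 * (6 / 7) ^ n * (1 / 500) := by
    intro n
    have e1 : β (n + 1) - β n = ((2 : ℝ) ^ (n + 1))⁻¹ * (((2 : ℝ) ^ (n + 2))⁻¹ *
        ∑ g, E n g (S (ι (∑ j, D.τ n j g • u (n + 1) j + ∑ j, (2 * -D.σ n j g) • u n j)))) := by
      simp only [β]
      simp only [hc3]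
      simp only [c, LinearMap.smul_apply, LinearMap.sum_apply, smul_eq_mul, map_add, map_sum,
        map_smul, Finset.sum_add_distrib, ← Finset.mul_sum]
      rw [Finset.sum_comm (s := (univ : Finset (JJ (n + 1)))),
        Finset.sum_comm (s := (univ : Finset (JJ n)))]
      have e2 : ∑ g, ∑ j, 2 * -D.σ n j g * E n g (S (ι (u n j))) =
          -2 * ∑ g, ∑ j, D.σ n j g * E n g (S (ι (u n j))) := by
        rw [Finset.mul_sum]
        refine Finset.sum_congr rfl fun g _ => ?_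
        rw [Finset.mul_sum]
        exact Finset.sum_congr rfl fun j _ => by ring
      rw [e2, pow_succ (2 : ℝ) n]
      field_simp
      ring
    have hl : (0 : ℝ) < (7 / 8) ^ n := by positivity
    have h1 : ∀ g ∈ (univ : Finset (GG n)), |E n g (S (ι (∑ j, D.τ n j g • u (n + 1) j +
        ∑ j, (2 * -D.σ n j g) • u n j)))| ≤ 65 * (3 / 2) ^ n * (((7 / 8) ^ n)⁻¹ * (1 / 500)) := by
      intro g _
      refine hF3 n g ((E n g).comp S) _ (by positivity) fun m hm => ?_
      have h2 := le_trans (hE2 n g _) (hS (((7 / 8 : ℝ) ^ n) • m)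
        (Or.inr (Set.mem_iUnion.2 ⟨n, Set.mem_iUnion.2 ⟨g, m, hm, rfl⟩⟩)))
      rw [map_smul, map_smul, smul_eq_mul, abs_mul, abs_of_pos hl] at h2
      rw [LinearMap.comp_apply, le_inv_mul_iff₀ hl]
      exact h2
    have h2 := le_trans (Finset.abs_sum_le_sum_abs _ _) (Finset.sum_le_card_nsmul _ _ _ h1)
    rw [card_univ, nsmul_eq_mul, hcard] at h2
    rw [e1, abs_mul, abs_mul, abs_of_pos (hw _), abs_of_pos (hw _)]
    have h3 := mul_le_mul_of_nonneg_left (mul_le_mul_of_nonneg_left h2 (hw (n + 2)).le)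
      (hw (n + 1)).le
    refine le_trans h3 ?_
    have e3 : (6 / 7 : ℝ) ^ n = ((2 : ℝ) ^ n)⁻¹ * (3 / 2) ^ n * ((7 / 8) ^ n)⁻¹ := by
      rw [← inv_pow, ← inv_pow, ← mul_pow, ← mul_pow]; norm_num
    have e4 : ((2 : ℝ) ^ (n + 1))⁻¹ * (((2 : ℝ) ^ (n + 2))⁻¹ * (2 ^ (n + 2) *
        (65 * (3 / 2) ^ n * (((7 / 8) ^ n)⁻¹ * (1 / 500))))) =
        65 / 2 * (6 / 7) ^ n * (1 / 500) := by
      rw [e3, pow_succ (2 : ℝ) n]; field_simp
    rw [e4]
    have : (0 : ℝ) < (6 / 7) ^ n := by positivity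
    nlinarith
  have hβ : ∀ n, |β n| ≤ (1 + 231 * (1 - (6 / 7) ^ n)) * (1 / 500) := by
    intro n
    induction n with
    | zero => simpa using hβ0
    | succ n ih =>
      have h1 := hstep n
      have h2 : |β (n + 1)| ≤ |β (n + 1) - β n| + |β n| := by
        simpa using abs_add_le (β (n + 1) - β n) (β n)
      rw [pow_succ]
      linarith
  obtain ⟨k, hk⟩ := findim_decay JJ (fun n => ((2 : ℝ) ^ n)⁻¹) (fun n => (hw n).le) c
    (fun y => ⟨N y, fun n j => hc1 n j y⟩) hdec _ (LinearMap.range T) hfin le_rfl |C| (1 / 4)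
    (by norm_num)
  have h1 := hk k le_rfl (fun j => T (ι (u k j))) (fun j => LinearMap.mem_range_self _ _)
    (fun j m i => by
      have := hFu3 k j ((c m i).comp T) |C| (abs_nonneg C) (fun y hy => by
        refine le_trans (hc1 m i _) (le_trans (hC y) ?_)
        calc C * N y ≤ |C| * N y := mul_le_mul_of_nonneg_right (le_abs_self C) (hN.nonneg y)
          _ ≤ |C| * 1 := mul_le_mul_of_nonneg_left (hFu2 k j y hy) (abs_nonneg C)
          _ = |C| := mul_one _)
      simpa using this)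
  have e1 : β k = ((2 : ℝ) ^ k)⁻¹ * ∑ j, c k j (T (ι (u k j))) - 1 := by
    simp only [β, S, LinearMap.sub_apply, LinearMap.id_apply, map_sub, hu4,
      Finset.sum_sub_distrib, Finset.sum_const, card_univ, Fintype.card_fin, nsmul_eq_mul]
    push_cast
    field_simp
  have h2 : ((2 : ℝ) ^ k)⁻¹ * ∑ j, c k j (T (ι (u k j))) ≤ 1 / 4 :=
    le_trans (mul_le_mul_of_nonneg_left (Finset.sum_le_sum fun j _ => le_abs_self _) (hw k).le) h1
  have h3 := hβ k
  have h4 : (0 : ℝ) < (6 / 7) ^ k := by positivity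
  have h5 := neg_abs_le (β k)
  linarith

end Pool.Agent.Work.MP_f25c59_an
end
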